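import Pool.Agent.FSP.Defs

/-!
Exponential time with few rounds of parallel queries to an oracle in `NP`.
-/

set_option autoImplicit false

namespace Pool.Agent.FSR

open Turing Computability Lib.helper60 MP_92db0f_lc_alg Pool.Agent.LCB

open Classical in
/-- The list of the answers in the first `i` rounds. In every round there are `M` questions; the
question with the number `j < M` is: is there a string `y` of length at most `B` with
`V ((xa, (j, M)), (T, y))`, where `T` is the list of the answers in all previous rounds? -/
noncomputable def roundAnswers
    (V : ((List Bool × List Bool) × (ℕ × ℕ)) × (List Bool × List Bool) → Prop) (B : ℕ)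
    (xa : List Bool × List Bool) (M : ℕ) : ℕ → List Bool
  | 0 => []
  | i + 1 => roundAnswers V B xa M i ++ (List.range M).map fun j => decide (∃ y : List Bool,
      y.length ≤ B ∧ V ((xa, (j, M)), (roundAnswers V B xa M i, y)))

/-- The language `L` is decided in time `2 ^ O(n ^ c)` with the oracle `O`, `O(n ^ c)` bits of
advice and `O(n ^ c)` rounds of parallel queries of polynomial length to an oracle in `NP` (relative
to `O`). With `n` the length of the input `x`, there are `k * (n ^ c + 1)` rounds and
`M = 2 ^ (k * (n ^ c + 1))` questions in each round. The question with the number `j` is whether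
there is a string `y` of length at most `P n` with `V (((x, a n), (j, M)), (T, y))`, where `T` is
the list of the answers in the previous rounds (see `roundAnswers`). The predicate `V` and the final
decision `D`, which depends on the list of all answers, are decided with the oracle `O` in time
polynomial in the lengths of their arguments and in `M`. So the questions may be, for example,
queries of polynomial length to a set in `NP`, the query with the number `j` being computed from
`x`, `a n`, `j` and `T` in time `2 ^ O(n ^ c)`. -/
def InRounds (c : ℕ) (O L : Set (List Bool)) : Prop :=
  ∃ (V : ((List Bool × List Bool) × (ℕ × ℕ)) × (List Bool × List Bool) → Prop)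
    (D : (List Bool × List Bool) × List Bool → Prop) (a : ℕ → List Bool) (P : Polynomial ℕ)
    (k : ℕ),
    PolyTime (fun z : ((List Bool × List Bool) × (ℕ × ℕ)) × (List Bool × List Bool) =>
      encPair (encPair (encPair z.1.1, encPair (List.replicate z.1.2.1 true,
        List.replicate z.1.2.2 true)), encPair z.2)) O V ∧
    PolyTime (fun z : (List Bool × List Bool) × List Bool => encPair (encPair z.1, z.2)) O D ∧
    (∀ n, (a n).length ≤ k * (n ^ c + 1)) ∧
    ∀ (x : List Bool) (M : ℕ), M = 2 ^ (k * (x.length ^ c + 1)) →
      (x ∈ L ↔ D ((x, a x.length), roundAnswers V (P.eval x.length) (x, a x.length) M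
        (k * (x.length ^ c + 1))))

/-- The number of the pairs of an input of length `n` and a question with the answer yes, in the
round that follows the first `i` rounds (see `roundAnswers`), with the advice `a` and `M` questions
in every round. -/
noncomputable def yesCount
    (V : ((List Bool × List Bool) × (ℕ × ℕ)) × (List Bool × List Bool) → Prop) (B : ℕ)
    (a : List Bool) (n M i : ℕ) : ℕ :=
  {z : List Bool × ℕ | z.1.length = n ∧ z.2 < M ∧ ∃ y : List Bool, y.length ≤ B ∧
    V (((z.1, a), (z.2, M)), (roundAnswers V B (z.1, a) M i, y))}.ncard

/-- The language `L` is decided in time `2 ^ O(n ^ c)` with the oracle `O`, `O(n ^ c)` bits of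
advice and `2 ^ O(n ^ c)` rounds of parallel questions as in `InRounds`, and for every round the
number of all answers yes is computed in time `2 ^ O(n ^ c)` from the length `n` and the advice.
With `M = 2 ^ (k * (n ^ c + 1))`, there are `M` rounds of `M` questions. The number of the pairs of
an input of length `n` and a question of the round `i` with the answer yes is the length of
`ν ((1 ... 1, a n), (i, M))`, where `1 ... 1` has length `n` and `ν` is computed by a Turing machine
in time polynomial in the lengths of its arguments, in `i` and in `M`. -/
def InCounted (c : ℕ) (O L : Set (List Bool)) : Prop :=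
  ∃ (V : ((List Bool × List Bool) × (ℕ × ℕ)) × (List Bool × List Bool) → Prop)
    (D : (List Bool × List Bool) × List Bool → Prop)
    (ν : (List Bool × List Bool) × (ℕ × ℕ) → List Bool) (a : ℕ → List Bool)
    (P : Polynomial ℕ) (k : ℕ),
    PolyTime (fun z : ((List Bool × List Bool) × (ℕ × ℕ)) × (List Bool × List Bool) =>
      encPair (encPair (encPair z.1.1, encPair (List.replicate z.1.2.1 true,
        List.replicate z.1.2.2 true)), encPair z.2)) O V ∧
    PolyTime (fun z : (List Bool × List Bool) × List Bool => encPair (encPair z.1, z.2)) O D ∧
    Nonempty (TM2ComputableInPolyTime (fun z : (List Bool × List Bool) × (ℕ × ℕ) =>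
      encPair (encPair z.1, encPair (List.replicate z.2.1 true, List.replicate z.2.2 true)))
        (fun v => v) ν) ∧
    (∀ n, (a n).length ≤ k * (n ^ c + 1)) ∧
    (∀ n M : ℕ, M = 2 ^ (k * (n ^ c + 1)) → ∀ i < M,
      (ν ((List.replicate n true, a n), (i, M))).length =
        yesCount V (P.eval n) (a n) n M i) ∧
    ∀ (x : List Bool) (M : ℕ), M = 2 ^ (k * (x.length ^ c + 1)) →
      (x ∈ L ↔ D ((x, a x.length), roundAnswers V (P.eval x.length) (x, a x.length) M M))

open Classical in
/-- The language `L` is decided in polynomial time with an oracle in `NP` (relative to `O`) and
`O(n ^ c)` bits of advice, and the list of the answers of the oracle has a description of `O(n ^ c)`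
bits for every input. The machine makes `P n` adaptive queries; the next query `q` and the decision
`d` are computed by Turing machines in polynomial time from the input `x`, the advice `a n` and the
answers so far. The description of the list of all answers is a string `z`; the answer with the
number `i` is `W (((x, a n), (i, M)), z)`, which is decided with the oracle `O` in time polynomial
in the lengths of the arguments and in `M = 2 ^ (k * (n ^ c + 1))`. -/
def InShort (c : ℕ) (O L : Set (List Bool)) : Prop :=
  ∃ (S : Set (List Bool)) (q : (List Bool × List Bool) × List Bool → List Bool)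
    (d : (List Bool × List Bool) × List Bool → Bool)
    (W : ((List Bool × List Bool) × (ℕ × ℕ)) × List Bool → Prop) (a : ℕ → List Bool)
    (P : Polynomial ℕ) (k : ℕ),
    InNP O S ∧
    Nonempty (TM2ComputableInPolyTime
      (fun z : (List Bool × List Bool) × List Bool => encPair (encPair z.1, z.2))
        (fun v => v) q) ∧
    Nonempty (TM2ComputableInPolyTime
      (fun z : (List Bool × List Bool) × List Bool => encPair (encPair z.1, z.2))
        encodeBool d) ∧
    PolyTime (fun z : ((List Bool × List Bool) × (ℕ × ℕ)) × List Bool =>
      encPair (encPair (encPair z.1.1, encPair (List.replicate z.1.2.1 true,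
        List.replicate z.1.2.2 true)), z.2)) O W ∧
    (∀ n, (a n).length ≤ k * (n ^ c + 1)) ∧
    ∀ (x : List Bool) (M : ℕ), M = 2 ^ (k * (x.length ^ c + 1)) →
      (∃ z : List Bool, z.length ≤ k * (x.length ^ c + 1) ∧
        answers S q (x, a x.length) (P.eval x.length) = (List.range (P.eval x.length)).map
          fun i => decide (W (((x, a x.length), (i, M)), z))) ∧
      (x ∈ L ↔ d ((x, a x.length), answers S q (x, a x.length) (P.eval x.length)) = true)

end Pool.Agent.FSR
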