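import Pool.Agent.FSP.Brute
import Pool.Agent.FSR.Defs

/-!
Exhaustive search: the languages decided with few rounds of queries of polynomial length to an
oracle in `NP` are decided in exponential time.
-/

set_option autoImplicit false
set_option linter.unusedSectionVars false

namespace Pool.Agent.FSR

open Lib.helper60 Function Turing Computability Pool.Agent.LCB
open MP_92db0f_lc hiding answers InNEXP mkC length_mkC PT_mkC answers_take length_answers
open MP_92db0f_lc_alg (answers PolyTime InNEXP join)
open MP_92db0f_lc_gold (OPT Meas pbMeas natPB gen length_gen length_answers answers_take)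
open MP_92db0f_lc_thr (PT_of_TM2 PT_of_TM2' PT_encz PT_encPair')
open FSP (Mc Mc_eq PT_Mc src src_iff)

/-- the code of the inputs of the predicate `V` -/
def encr (z : ((List Bool × List Bool) × (ℕ × ℕ)) × (List Bool × List Bool)) : List Bool :=
  encPair (encPair (encPair z.1.1, encPair (List.replicate z.1.2.1 true,
    List.replicate z.1.2.2 true)), encPair z.2)

lemma PT_encr : PT encr :=
  PT_encPair (PT_encPair (PT_encPair'.comp PT.fst.p1) (PT_encPair
    (PT.replicate PT.fst.p2.p1 (PT.const true)) (PT.replicate PT.fst.p2.p2 (PT.const true))))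
      (PT_encPair'.comp PT.snd)

/-- the number of the complete rounds in a list of `l` answers -/
def rd (M R l : ℕ) : ℕ := ((List.range R).filter fun i => decide ((i + 1) * M ≤ l)).length

lemma length_filter_range (i R : ℕ) (h : i ≤ R) :
    ((List.range R).filter fun a => decide (a < i)).length = i := by
  induction R with
  | zero =>
    have : i = 0 := by omega
    subst this
    rfl
  | succ R ih =>
    rw [List.range_succ, List.filter_append, List.length_append]
    rcases Nat.lt_or_ge R i with h1 | h1
    · have h2 : i = R + 1 := by omega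
      subst h2
      have h3 : ((List.range R).filter fun a => decide (a < R + 1)) = List.range R := by
        rw [List.filter_eq_self]
        intro a ha
        rw [List.mem_range] at ha
        rw [decide_eq_true_iff]
        omega
      rw [h3, List.length_range]
      simp
    · rw [ih h1]
      have h3 : ([R].filter fun a => decide (a < i)) = [] := by
        rw [List.filter_eq_nil_iff]
        intro a ha
        rw [List.mem_singleton] at ha
        rw [decide_eq_true_iff]
        omega
      rw [h3]
      rfl

lemma rd_eq {M R i j : ℕ} (hi : i < R) (hj : j < M) : rd M R (i * M + j) = i := by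
  unfold rd
  have h1 : ∀ a, decide ((a + 1) * M ≤ i * M + j) = decide (a < i) := by
    intro a
    rw [Bool.eq_iff_iff, decide_eq_true_iff, decide_eq_true_iff]
    constructor
    · intro h
      by_contra hcon
      have h2 : (i + 1) * M ≤ (a + 1) * M := Nat.mul_le_mul_right _ (by omega)
      have h3 : (i + 1) * M = i * M + M := by ring
      omega
    · intro h
      have h2 : (a + 1) * M ≤ i * M := Nat.mul_le_mul_right _ h
      omega
  simp only [h1]
  exact length_filter_range i R hi.le

section

variable (v : ((List Bool × List Bool) × (ℕ × ℕ)) × (List Bool × List Bool) → Bool)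

/-- the next answer, found by exhaustive search -/
def nxt (B N M R : ℕ) (xa : List Bool × List Bool) (T : List Bool) : Bool :=
  src (fun q => v (q.1, (T.take (rd M R T.length * M), q.2))) B N
    (xa, (T.length - rd M R T.length * M, M))

variable {v}

lemma length_roundAnswers (V : ((List Bool × List Bool) × (ℕ × ℕ)) × (List Bool × List Bool) → Prop)
    (B : ℕ) (xa : List Bool × List Bool) (M i : ℕ) :
    (roundAnswers V B xa M i).length = i * M := by
  induction i with
  | zero => rw [Nat.zero_mul]; rfl
  | succ i ih =>
    rw [roundAnswers, List.length_append, ih, List.length_map, List.length_range]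
    ring

open Classical in
lemma gen_nxt {B N M R : ℕ} (hN : 2 ^ (B + 1) ≤ N + 1) (xa : List Bool × List Bool) {α : Type}
    (w : α) : ∀ i ≤ R, gen (fun z : α × List Bool => nxt v B N M R xa z.2) w (i * M) =
      roundAnswers (fun z => v z = true) B xa M i := by
  intro i
  induction i with
  | zero =>
    intro _
    rw [Nat.zero_mul]
    rfl
  | succ i ih =>
    intro hi
    have ih := ih (by omega)
    have key : ∀ j ≤ M, gen (fun z : α × List Bool => nxt v B N M R xa z.2) w (i * M + j) =
        roundAnswers (fun z => v z = true) B xa M i ++ (List.range j).map fun j =>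
          decide (∃ y : List Bool, y.length ≤ B ∧
            v ((xa, (j, M)), (roundAnswers (fun z => v z = true) B xa M i, y)) = true) := by
      intro j
      induction j with
      | zero =>
        intro _
        rw [Nat.add_zero, ih, List.range_zero, List.map_nil, List.append_nil]
      | succ j ihj =>
        intro hj
        have ihj := ihj (by omega)
        rw [← Nat.add_assoc, gen]
        have hlen := length_gen (fun z : α × List Bool => nxt v B N M R xa z.2) w (i * M + j)
        obtain ⟨g, hg⟩ : ∃ g, g = gen (fun z : α × List Bool => nxt v B N M R xa z.2) w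
          (i * M + j) := ⟨_, rfl⟩
        rw [← hg] at ihj hlen ⊢
        have h1 : nxt v B N M R xa g = decide (∃ y : List Bool, y.length ≤ B ∧
            v ((xa, (j, M)), (roundAnswers (fun z => v z = true) B xa M i, y)) = true) := by
          unfold nxt
          have h3 : g.take (i * M) = roundAnswers (fun z => v z = true) B xa M i := by
            rw [ihj]
            exact List.take_left' (length_roundAnswers _ _ _ _ _)
          rw [hlen, rd_eq (by omega) (by omega), h3, Nat.add_sub_cancel_left,
            Bool.eq_iff_iff, src_iff hN, decide_eq_true_iff]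
        dsimp only
        rw [h1, ihj, List.range_succ, List.map_append, ← List.append_assoc]
        rfl
    rw [Nat.succ_mul, key M le_rfl]
    rfl

end

/-- **Exhaustive search.** -/
theorem ear_of_brute {O L : Set (List Bool)} {c : ℕ} (hL : InRounds c O L) :
    ∃ e, InEAR O e L := by
  classical
  obtain ⟨V, D, a, P, k, hV, hD, ha, hx⟩ := hL
  obtain ⟨v, hv, hVv⟩ := OPT_of_polyTime PT_encr hV
  obtain ⟨d, hd, hDd⟩ := OPT_of_polyTime PT_encz hD
  have hVv' : V = fun z => v z = true := funext fun z => propext (hVv z)
  subst hVv'
  obtain ⟨Q, hQ⟩ : ∃ Q : Polynomial ℕ, ∀ n, Q.eval n = P.eval n + 1 + k * (n ^ c + 1) := by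
    refine ⟨P + 1 + Polynomial.C k * (Polynomial.X ^ c + 1), fun n => ?_⟩
    simp
  obtain ⟨e, C, hC, -, hle⟩ := Pool.Agent.LCB.poly_le_pow Q
  refine ⟨e, fun w => d ((w.1, w.2.1), gen (fun z : (List Bool × (List Bool × ℕ)) × List Bool =>
    nxt v (P.eval z.1.1.length) z.1.2.2 (Mc z.1.2.2 k c z.1.1.length) (k * (z.1.1.length ^ c + 1))
      (z.1.1, z.1.2.1) z.2) w ((k * (w.1.length ^ c + 1)) * Mc w.2.2 k c w.1.length)), a, C,
        ?_, ?_, ?_⟩
  · have hM : PT (fun w : List Bool × (List Bool × ℕ) => Mc w.2.2 k c w.1.length) :=
      PT_Mc PT.snd.p2 (PT.length PT.fst) k c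
    have hR : PT (fun w : List Bool × (List Bool × ℕ) => k * (w.1.length ^ c + 1)) :=
      PT.nmul (PT.const k) (PT.nsucc (PT_npow (PT.length PT.fst) c))
    have hRM : PT (fun w : List Bool × (List Bool × ℕ) =>
        (k * (w.1.length ^ c + 1)) * Mc w.2.2 k c w.1.length) := PT.nmul hR hM
    have h1 : OPT O (fun z : (List Bool × (List Bool × ℕ)) × List Bool =>
        nxt v (P.eval z.1.1.length) z.1.2.2 (Mc z.1.2.2 k c z.1.1.length)
          (k * (z.1.1.length ^ c + 1)) (z.1.1, z.1.2.1) z.2) := by
      have hr : PT (fun z : (List Bool × (List Bool × ℕ)) × List Bool =>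
          rd (Mc z.1.2.2 k c z.1.1.length) (k * (z.1.1.length ^ c + 1)) z.2.length *
            Mc z.1.2.2 k c z.1.1.length) := by
        unfold rd
        refine PT.nmul (PT.length (PT.filter (p := fun y :
          ((List Bool × (List Bool × ℕ)) × List Bool) × ℕ =>
            decide ((y.2 + 1) * Mc y.1.1.2.2 k c y.1.1.1.length ≤ y.1.2.length))
            (PT.range (hR.comp PT.fst)) ?_)) (hM.comp PT.fst)
        exact PT.nle (PT.nmul (PT.nsucc PT.snd) (hM.comp PT.fst.p1)) (PT.length PT.fst.p2)
      unfold nxt src
      refine MP_92db0f_lc_gold.OPT.any (p := fun z :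
        ((List Bool × (List Bool × ℕ)) × List Bool) × ℕ =>
        decide ((str z.2).length ≤ P.eval z.1.1.1.length) && v (((z.1.1.1, z.1.1.2.1),
          (z.1.2.length - rd (Mc z.1.1.2.2 k c z.1.1.1.length) (k * (z.1.1.1.length ^ c + 1))
            z.1.2.length * Mc z.1.1.2.2 k c z.1.1.1.length, Mc z.1.1.2.2 k c z.1.1.1.length)),
          (z.1.2.take (rd (Mc z.1.1.2.2 k c z.1.1.1.length) (k * (z.1.1.1.length ^ c + 1))
            z.1.2.length * Mc z.1.1.2.2 k c z.1.1.1.length), str z.2))) ?_ PT.fst.p2.p2
      exact (OPT.of_PT (PT.nle (PT.length (PT_str PT.snd))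
        (PT_peval P (PT.length PT.fst.p1.p1)))).band (hv.comp_PT (PT.pair (PT.pair
          (PT.pair PT.fst.p1.p1 PT.fst.p1.p2.p1) (PT.pair (PT.nsub (PT.length PT.fst.p2)
            (hr.comp PT.fst)) (hM.comp PT.fst.p1)))
            (PT.pair (PT_take (hr.comp PT.fst) PT.fst.p2) (PT_str PT.snd))))
    have h2 := (MP_92db0f_lc_gold.OPT.gen h1).comp_PT
      (h := fun w : List Bool × (List Bool × ℕ) =>
        (w, (k * (w.1.length ^ c + 1)) * Mc w.2.2 k c w.1.length)) (PT.pair PT.id hRM)
    have h3 : OPT O (fun p : (List Bool × (List Bool × ℕ)) × List Bool =>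
        d ((p.1.1, p.1.2.1), p.2)) :=
      hd.comp_PT (PT.pair (PT.pair PT.fst.p1 PT.fst.p2.p1) PT.snd)
    exact MP_92db0f_lc_gold.OPT.bind h2 h3 hRM fun w => by
      change List.length _ ≤ _
      rw [length_gen]
  · intro n
    have h1 := hle n
    have h2 := ha n
    rw [hQ] at h1
    omega
  · intro x N hN
    have hbig : ∀ m, m ≤ (x.length + C) ^ e → 2 ^ m ≤ N := by
      intro m hm
      exact (Nat.pow_le_pow_right (by norm_num) hm).trans hN
    have h1 := hle x.length
    rw [hQ] at h1
    have hM : Mc N k c x.length = 2 ^ (k * (x.length ^ c + 1)) :=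
      Mc_eq ((hbig _ (by omega)).trans (Nat.le_succ _))
    dsimp only
    rw [hM, hx x _ rfl, hDd]
    have h4 := gen_nxt (v := v) (B := P.eval x.length) (N := N)
      (M := 2 ^ (k * (x.length ^ c + 1))) (R := k * (x.length ^ c + 1))
      ((hbig _ (by omega)).trans (Nat.le_succ _)) (x, a x.length)
      (x, (a x.length, N)) _ le_rfl
    rw [← h4]
    have h5 : ∀ m, gen (fun z : (List Bool × (List Bool × ℕ)) × List Bool =>
        nxt v (P.eval z.1.1.length) z.1.2.2 (Mc z.1.2.2 k c z.1.1.length)
          (k * (z.1.1.length ^ c + 1)) (z.1.1, z.1.2.1) z.2) (x, (a x.length, N)) m =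
        gen (fun z : (List Bool × (List Bool × ℕ)) × List Bool =>
          nxt v (P.eval x.length) N (2 ^ (k * (x.length ^ c + 1))) (k * (x.length ^ c + 1))
            (x, a x.length) z.2) (x, (a x.length, N)) m := by
      intro m
      induction m with
      | zero => rfl
      | succ m ih =>
        rw [gen, gen, ih]
        dsimp only
        rw [hM]
    rw [h5]

end Pool.Agent.FSR
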