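import Pool.Agent.FSP.Sim
import Pool.Agent.FSR.Brute

/-!
Nonadaptive queries are one round; so machines with bounded memory are contained in exponential time
with few rounds.
-/

set_option autoImplicit false
set_option linter.unusedSectionVars false

namespace Pool.Agent.FSR

open Lib.helper60 Function Turing Computability Pool.Agent.LCB
open MP_92db0f_lc hiding answers InNEXP mkC length_mkC PT_mkC answers_take length_answers
open MP_92db0f_lc_alg (answers PolyTime InNEXP join)
open MP_92db0f_lc_gold (OPT Meas pbMeas natPB gen length_gen length_answers answers_take)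
open MP_92db0f_lc_thr (PT_of_TM2 PT_of_TM2' PT_encz PT_encPair')
open FSP (Mc Mc_eq PT_Mc InTable InSpace PT_encv polyTime_of_OPT meas_encz)

/-- decoding -/
def decr (w : List Bool) : ((List Bool × List Bool) × (ℕ × ℕ)) × (List Bool × List Bool) :=
  ((unpair (unpair (unpair w).1).1, ((unpair (unpair (unpair w).1).2).1.length,
    (unpair (unpair (unpair w).1).2).2.length)), unpair (unpair w).2)

lemma decr_encr (z : ((List Bool × List Bool) × (ℕ × ℕ)) × (List Bool × List Bool)) :
    decr (encr z) = z := by
  unfold decr encr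
  simp only [unpair_enc, List.length_replicate]

lemma PT_decr : PT decr := by
  have u1 : PT (fun w : List Bool => unpair (unpair w).1) := PT_unpair.comp PT_unpair.p1
  have u2 : PT (fun w : List Bool => unpair (unpair (unpair w).1).2) := PT_unpair.comp u1.p2
  exact PT.pair (PT.pair (PT_unpair.comp u1.p1) (PT.pair (PT.length u2.p1) (PT.length u2.p2)))
    (PT_unpair.comp PT_unpair.p2)

lemma meas_encr (z : ((List Bool × List Bool) × (ℕ × ℕ)) × (List Bool × List Bool)) :
    Meas.m z ≤ (encr z).length := by
  obtain ⟨⟨⟨x, a⟩, j, M⟩, T, y⟩ := z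
  change ((x.length + a.length + 2) + (j + M + 2) + 2) + (T.length + y.length + 2) + 2 ≤
    (encPair (encPair (encPair (x, a), encPair (List.replicate j true,
      List.replicate M true)), encPair (T, y))).length
  rw [length_encPair, length_encPair, length_encPair, length_encPair, length_encPair,
    List.length_replicate, List.length_replicate]
  omega

open Classical in
/-- the answers in the first round -/
lemma take_roundAnswers
    (V : ((List Bool × List Bool) × (ℕ × ℕ)) × (List Bool × List Bool) → Prop) (B : ℕ)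
    (xa : List Bool × List Bool) {M M' : ℕ} (hM : M ≤ M') (i : ℕ) :
    (roundAnswers V B xa M' (i + 1)).take M = (List.range M).map fun j =>
      decide (∃ y : List Bool, y.length ≤ B ∧ V ((xa, (j, M')), ([], y))) := by
  induction i with
  | zero =>
    rw [roundAnswers]
    change List.take M ([] ++ _) = _
    rw [List.nil_append, ← List.map_take, List.take_range, Nat.min_eq_left hM]
    rfl
  | succ i ih =>
    rw [roundAnswers, List.take_append_of_le_length, ih]
    rw [length_roundAnswers]
    exact hM.trans (Nat.le_mul_of_pos_left _ (by omega))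

/-- **Nonadaptive queries are one round.** -/
theorem rounds_of_table {O L : Set (List Bool)} {c : ℕ} (hL : InTable c O L) :
    InRounds c O L := by
  classical
  obtain ⟨V, D, a, P, k, hV, hD, ha, hx⟩ := hL
  obtain ⟨v, hv, hVv⟩ := OPT_of_polyTime PT_encv hV
  obtain ⟨d, hd, hDd⟩ := OPT_of_polyTime PT_encz hD
  have hv' : OPT O (fun z : ((List Bool × List Bool) × (ℕ × ℕ)) × (List Bool × List Bool) =>
      v ((z.1.1, (z.1.2.1, Mc z.1.2.2 k c z.1.1.1.length)), z.2.2)) :=
    hv.comp_PT (PT.pair (PT.pair PT.fst.p1 (PT.pair PT.fst.p2.p1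
      (PT_Mc PT.fst.p2.p2 (PT.length PT.fst.p1.p1) k c))) PT.snd.p2)
  have hd' : OPT O (fun z : (List Bool × List Bool) × List Bool =>
      d (z.1, z.2.take (Mc z.2.length k c z.1.1.length))) :=
    hd.comp_PT (PT.pair PT.fst (PT_take (PT_Mc (PT.length PT.snd) (PT.length PT.fst.p1) k c)
      PT.snd))
  refine ⟨_, _, a, P, k + 1, polyTime_of_OPT PT_decr decr_encr meas_encr hv',
    polyTime_of_OPT MP_92db0f_lc_gold.PT_dec3 (fun z => MP_92db0f_lc_gold.dec3_enc3 z) meas_encz
      hd', fun n => (ha n).trans (Nat.mul_le_mul_right _ (Nat.le_succ k)), ?_⟩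
  intro x M' hM'
  obtain ⟨M, hM⟩ : ∃ M, M = 2 ^ (k * (x.length ^ c + 1)) := ⟨_, rfl⟩
  have hMM : M ≤ M' := by
    rw [hM, hM']
    exact Nat.pow_le_pow_right (by norm_num) (Nat.mul_le_mul_right _ (Nat.le_succ k))
  have hR : (k + 1) * (x.length ^ c + 1) = (k + 1) * (x.length ^ c + 1) - 1 + 1 := by
    have : 1 ≤ (k + 1) * (x.length ^ c + 1) := Nat.mul_pos (by omega) (by omega)
    omega
  dsimp only
  rw [hx x M hM, hDd, hR]
  have h1 : Mc (roundAnswers (fun z : ((List Bool × List Bool) × (ℕ × ℕ)) ×
      (List Bool × List Bool) => v ((z.1.1, (z.1.2.1, Mc z.1.2.2 k c z.1.1.1.length)), z.2.2) =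
        true) (P.eval x.length) (x, a x.length) M'
          ((k + 1) * (x.length ^ c + 1) - 1 + 1)).length k c x.length = M := by
    rw [hM]
    apply Mc_eq
    rw [← hM, length_roundAnswers]
    exact hMM.trans ((Nat.le_mul_of_pos_left _ (by omega)).trans (Nat.le_succ _))
  have h2 : Mc M' k c x.length = M := by
    rw [hM]
    exact Mc_eq (by rw [← hM]; omega)
  rw [h1, take_roundAnswers _ _ _ hMM]
  simp only [h2, hVv]

/-- **Machines with bounded memory.** -/
theorem rounds_of_space {O L : Set (List Bool)} {c : ℕ} (hL : InSpace c O L) :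
    InRounds c O L := rounds_of_table (FSP.table_of_space hL)

end Pool.Agent.FSR
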