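import Pool.Agent.FSR.Main

/-!
The lower bound for computations with any number of rounds such that the numbers of the answers yes
in all rounds are computed from the advice.
-/

set_option autoImplicit false
set_option linter.unusedSectionVars false

namespace Pool.Agent.FSR

open Turing Computability Lib.helper60 Function Pool.Agent.LCB
open MP_92db0f_lc hiding answers InNEXP mkC length_mkC PT_mkC answers_take length_answers KL
  KL_complete KL_mem poly_le_pow
open MP_92db0f_lc_alg (answers PolyTime InNEXP join)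
open MP_92db0f_lc_gold (OPT Meas pbMeas natPB gen length_gen length_answers answers_take KL
  KL_complete KL_mem)
open MP_92db0f_lc_thr (nthC mkC nthC_mkC length_mkC PT_nthC PT_of_TM2 PT_of_TM2' PT_encz padTo
  length_padTo unpair_padTo PT_padTo PT_encPair')
open FSP (Mc Mc_eq PT_Mc inst length_inst chkY chkY_iff ncard_Yes tab src)

/-- **Exhaustive search.** -/
theorem ear_of_brute_counted {O L : Set (List Bool)} {c : ℕ} (hL : InCounted c O L) :
    ∃ e, InEAR O e L := by
  classical
  obtain ⟨V, D, ν, a, P, k, hV, hD, -, ha, -, hx⟩ := hL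
  obtain ⟨v, hv, hVv⟩ := OPT_of_polyTime PT_encr hV
  obtain ⟨d, hd, hDd⟩ := OPT_of_polyTime PT_encz hD
  have hVv' : V = fun z => v z = true := funext fun z => propext (hVv z)
  subst hVv'
  obtain ⟨Q, hQ⟩ : ∃ Q : Polynomial ℕ, ∀ n, Q.eval n = P.eval n + 1 + k * (n ^ c + 1) := by
    refine ⟨P + 1 + Polynomial.C k * (Polynomial.X ^ c + 1), fun n => ?_⟩
    simp
  obtain ⟨e, C, hC, -, hle⟩ := Pool.Agent.LCB.poly_le_pow Q
  refine ⟨e, fun w => d ((w.1, w.2.1), gen (fun z : (List Bool × (List Bool × ℕ)) × List Bool =>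
    nxt v (P.eval z.1.1.length) z.1.2.2 (Mc z.1.2.2 k c z.1.1.length) (Mc z.1.2.2 k c z.1.1.length)
      (z.1.1, z.1.2.1) z.2) w (Mc w.2.2 k c w.1.length * Mc w.2.2 k c w.1.length)), a, C,
        ?_, ?_, ?_⟩
  · have hM : PT (fun w : List Bool × (List Bool × ℕ) => Mc w.2.2 k c w.1.length) :=
      PT_Mc PT.snd.p2 (PT.length PT.fst) k c
    have hRM : PT (fun w : List Bool × (List Bool × ℕ) =>
        Mc w.2.2 k c w.1.length * Mc w.2.2 k c w.1.length) := PT.nmul hM hM
    have h1 : OPT O (fun z : (List Bool × (List Bool × ℕ)) × List Bool =>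
        nxt v (P.eval z.1.1.length) z.1.2.2 (Mc z.1.2.2 k c z.1.1.length)
          (Mc z.1.2.2 k c z.1.1.length) (z.1.1, z.1.2.1) z.2) := by
      have hr : PT (fun z : (List Bool × (List Bool × ℕ)) × List Bool =>
          rd (Mc z.1.2.2 k c z.1.1.length) (Mc z.1.2.2 k c z.1.1.length) z.2.length *
            Mc z.1.2.2 k c z.1.1.length) := by
        unfold rd
        refine PT.nmul (PT.length (PT.filter (p := fun y :
          ((List Bool × (List Bool × ℕ)) × List Bool) × ℕ =>
            decide ((y.2 + 1) * Mc y.1.1.2.2 k c y.1.1.1.length ≤ y.1.2.length))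
            (PT.range (hM.comp PT.fst)) ?_)) (hM.comp PT.fst)
        exact PT.nle (PT.nmul (PT.nsucc PT.snd) (hM.comp PT.fst.p1)) (PT.length PT.fst.p2)
      unfold nxt src
      refine MP_92db0f_lc_gold.OPT.any (p := fun z :
        ((List Bool × (List Bool × ℕ)) × List Bool) × ℕ =>
        decide ((str z.2).length ≤ P.eval z.1.1.1.length) && v (((z.1.1.1, z.1.1.2.1),
          (z.1.2.length - rd (Mc z.1.1.2.2 k c z.1.1.1.length) (Mc z.1.1.2.2 k c z.1.1.1.length)
            z.1.2.length * Mc z.1.1.2.2 k c z.1.1.1.length, Mc z.1.1.2.2 k c z.1.1.1.length)),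
          (z.1.2.take (rd (Mc z.1.1.2.2 k c z.1.1.1.length) (Mc z.1.1.2.2 k c z.1.1.1.length)
            z.1.2.length * Mc z.1.1.2.2 k c z.1.1.1.length), str z.2))) ?_ PT.fst.p2.p2
      exact (OPT.of_PT (PT.nle (PT.length (PT_str PT.snd))
        (PT_peval P (PT.length PT.fst.p1.p1)))).band (hv.comp_PT (PT.pair (PT.pair
          (PT.pair PT.fst.p1.p1 PT.fst.p1.p2.p1) (PT.pair (PT.nsub (PT.length PT.fst.p2)
            (hr.comp PT.fst)) (hM.comp PT.fst.p1)))
            (PT.pair (PT_take (hr.comp PT.fst) PT.fst.p2) (PT_str PT.snd))))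
    have h2 := (MP_92db0f_lc_gold.OPT.gen h1).comp_PT
      (h := fun w : List Bool × (List Bool × ℕ) =>
        (w, Mc w.2.2 k c w.1.length * Mc w.2.2 k c w.1.length)) (PT.pair PT.id hRM)
    have h3 : OPT O (fun p : (List Bool × (List Bool × ℕ)) × List Bool =>
        d ((p.1.1, p.1.2.1), p.2)) :=
      hd.comp_PT (PT.pair (PT.pair PT.fst.p1 PT.fst.p2.p1) PT.snd)
    exact MP_92db0f_lc_gold.OPT.bind h2 h3 hRM fun w => by
      change List.length _ ≤ _
      rw [length_gen]
  · intro n
    have h1 := hle n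
    have h2 := ha n
    rw [hQ] at h1
    omega
  · intro x N hN
    have hbig : ∀ m, m ≤ (x.length + C) ^ e → 2 ^ m ≤ N := by
      intro m hm
      exact (Nat.pow_le_pow_right (by norm_num) hm).trans hN
    have h1 := hle x.length
    rw [hQ] at h1
    have hM : Mc N k c x.length = 2 ^ (k * (x.length ^ c + 1)) :=
      Mc_eq ((hbig _ (by omega)).trans (Nat.le_succ _))
    dsimp only
    rw [hM, hx x _ rfl, hDd]
    have h4 := gen_nxt (v := v) (B := P.eval x.length) (N := N)
      (M := 2 ^ (k * (x.length ^ c + 1))) (R := 2 ^ (k * (x.length ^ c + 1)))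
      ((hbig _ (by omega)).trans (Nat.le_succ _)) (x, a x.length)
      (x, (a x.length, N)) _ le_rfl
    rw [← h4]
    have h5 : ∀ m, gen (fun z : (List Bool × (List Bool × ℕ)) × List Bool =>
        nxt v (P.eval z.1.1.length) z.1.2.2 (Mc z.1.2.2 k c z.1.1.length)
          (Mc z.1.2.2 k c z.1.1.length) (z.1.1, z.1.2.1) z.2) (x, (a x.length, N)) m =
        gen (fun z : (List Bool × (List Bool × ℕ)) × List Bool =>
          nxt v (P.eval x.length) N (2 ^ (k * (x.length ^ c + 1)))
            (2 ^ (k * (x.length ^ c + 1))) (x, a x.length) z.2) (x, (a x.length, N)) m := by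
      intro m
      induction m with
      | zero => rfl
      | succ m ih =>
        rw [gen, gen, ih]
        dsimp only
        rw [hM]
    rw [h5]

/-- the verifier, with its inputs decoded -/
def VTp' (v : ((List Bool × List Bool) × (ℕ × ℕ)) × (List Bool × List Bool) → Bool)
    (ν : (List Bool × List Bool) × (ℕ × ℕ) → List Bool)
    (P : Polynomial ℕ) (k c : ℕ) (x a y₀ y₁ : List Bool) : Bool :=
  decide (p2 (y₀.length + 1) (k * (x.length ^ c + 1)) ≤ y₀.length) &&
    (List.range (Mc y₀.length k c x.length)).all fun i =>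
      chkY (vc v (Mc y₀.length k c x.length)
        (fun l => (ν ((List.replicate x.length true, a),
          (l, Mc y₀.length k c x.length))).length) y₁ i)
        (P.eval x.length) a x.length (Mc y₀.length k c x.length)
          (ν ((List.replicate x.length true, a), (i, Mc y₀.length k c x.length))).length
            (nthC y₁ i)

/-- the verifier -/
def VT' (v : ((List Bool × List Bool) × (ℕ × ℕ)) × (List Bool × List Bool) → Bool)
    (ν : (List Bool × List Bool) × (ℕ × ℕ) → List Bool)
    (P : Polynomial ℕ) (d : (List Bool × List Bool) × List Bool → Bool) (k c : ℕ)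
    (z : List Bool × List Bool) : Bool :=
  VTp' v ν P k c (unpair (unpair z.1).1).1 (unpair (unpair (unpair z.1).1).2).1
    (unpair z.2).1 (unpair z.2).2 &&
  d (((unpair (unpair z.1).1).1, (unpair (unpair (unpair z.1).1).2).1),
    TT (unpair (unpair z.1).1).1 (Mc (unpair z.2).1.length k c (unpair (unpair z.1).1).1.length)
      (fun l => (ν ((List.replicate (unpair (unpair z.1).1).1.length true,
        (unpair (unpair (unpair z.1).1).2).1),
          (l, Mc (unpair z.2).1.length k c (unpair (unpair z.1).1).1.length))).length)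
      (unpair z.2).2 (Mc (unpair z.2).1.length k c (unpair (unpair z.1).1).1.length))

section

variable {α : Type} [DEnc α]

lemma PT_TT' {ν : (List Bool × List Bool) × (ℕ × ℕ) → List Bool} (hν : PT ν)
    {x x' y a : α → List Bool} {M i : α → ℕ} (hx : PT x) (hx' : PT x') (hM : PT M) (ha : PT a)
    (hy : PT y) (hi : PT i) :
    PT (fun b => TT (x b) (M b) (fun l => (ν ((List.replicate (x' b).length true, a b),
      (l, M b))).length) (y b) (i b)) := by
  unfold TT
  refine PT.flatMap (g := fun w : α × ℕ => tab (x w.1) (M w.1)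
    (ν ((List.replicate (x' w.1).length true, a w.1), (w.2, M w.1))).length
      (nthC (y w.1) w.2)) (PT.range hi) ?_
  exact FSP.PT_tab (hx.comp PT.fst) (hM.comp PT.fst) (PT.length (hν.comp (PT.pair (PT.pair
    (PT.replicate (PT.length (hx'.comp PT.fst)) (PT.const true)) (ha.comp PT.fst))
      (PT.pair PT.snd (hM.comp PT.fst))))) (PT_nthC (hy.comp PT.fst) PT.snd)

end

lemma OPT_VT' {O : Set (List Bool)}
    {v : ((List Bool × List Bool) × (ℕ × ℕ)) × (List Bool × List Bool) → Bool}
    {ν : (List Bool × List Bool) × (ℕ × ℕ) → List Bool}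
    (P : Polynomial ℕ) {d : (List Bool × List Bool) × List Bool → Bool} (k c : ℕ) (hv : OPT O v)
    (hν : PT ν) (hd : OPT O d) : OPT O (VT' v ν P d k c) := by
  unfold VT' VTp'
  have u0 : PT (fun z : List Bool × List Bool => unpair z.1) := PT_unpair.comp PT.fst
  have u1 : PT (fun z : List Bool × List Bool => unpair (unpair z.1).1) := PT_unpair.comp u0.p1
  have u2 : PT (fun z : List Bool × List Bool => unpair (unpair (unpair z.1).1).2) :=
    PT_unpair.comp u1.p2
  have w : PT (fun z : List Bool × List Bool => unpair z.2) := PT_unpair.comp PT.snd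
  have hM : PT (fun z : List Bool × List Bool => Mc (unpair z.2).1.length k c
      (unpair (unpair z.1).1).1.length) := PT_Mc (PT.length w.p1) (PT.length u1.p1) k c
  refine ((OPT.of_PT (PT.nle (PT_p2 (PT.nsucc (PT.length w.p1)) (PT.nmul (PT.const k)
    (PT.nsucc (PT_npow (PT.length u1.p1) c)))) (PT.length w.p1))).band ?_).band ?_
  · refine MP_92db0f_lc_gold.OPT.all (p := fun z : (List Bool × List Bool) × ℕ =>
      chkY (vc v (Mc (unpair z.1.2).1.length k c (unpair (unpair z.1.1).1).1.length)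
        (fun l => (ν ((List.replicate (unpair (unpair z.1.1).1).1.length true,
          (unpair (unpair (unpair z.1.1).1).2).1),
            (l, Mc (unpair z.1.2).1.length k c (unpair (unpair z.1.1).1).1.length))).length)
              (unpair z.1.2).2 z.2)
        (P.eval (unpair (unpair z.1.1).1).1.length) (unpair (unpair (unpair z.1.1).1).2).1
        (unpair (unpair z.1.1).1).1.length
        (Mc (unpair z.1.2).1.length k c (unpair (unpair z.1.1).1).1.length)
        (ν ((List.replicate (unpair (unpair z.1.1).1).1.length true,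
          (unpair (unpair (unpair z.1.1).1).2).1),
            (z.2, Mc (unpair z.1.2).1.length k c (unpair (unpair z.1.1).1).1.length))).length
        (nthC (unpair z.1.2).2 z.2)) ?_ hM
    refine OPT_chkY' (V := fun y : ((List Bool × List Bool) × ℕ) ×
        (((List Bool × List Bool) × (ℕ × ℕ)) × List Bool) =>
      vc v (Mc (unpair y.1.1.2).1.length k c (unpair (unpair y.1.1.1).1).1.length)
        (fun l => (ν ((List.replicate (unpair (unpair y.1.1.1).1).1.length true,
          (unpair (unpair (unpair y.1.1.1).1).2).1),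
            (l, Mc (unpair y.1.1.2).1.length k c (unpair (unpair y.1.1.1).1).1.length))).length)
              (unpair y.1.1.2).2 y.1.2 y.2) ?_
      (u2.comp PT.fst).p1 (PT.length (u1.comp PT.fst).p1) (hM.comp PT.fst)
      (PT_peval P (PT.length (u1.comp PT.fst).p1))
      (PT.length (hν.comp (PT.pair (PT.pair (PT.replicate (PT.length (u1.comp PT.fst).p1)
        (PT.const true)) (u2.comp PT.fst).p1) (PT.pair PT.snd (hM.comp PT.fst)))))
      (PT_nthC (w.comp PT.fst).p2 PT.snd)
    unfold vc
    exact hv.comp_PT (PT.pair PT.snd.p1 (PT.pair (PT_TT' hν PT.snd.p1.p1.p1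
      (u1.comp PT.fst.p1).p1 (hM.comp PT.fst.p1) (u2.comp PT.fst.p1).p1 (w.comp PT.fst.p1).p2
        PT.fst.p2) PT.snd.p2))
  · exact hd.comp_PT (PT.pair (PT.pair u1.p1 u2.p1) (PT_TT' hν u1.p1 u1.p1 hM u2.p1 w.p2 hM))


/-- **The main step.** -/
theorem ear_of_counted {O L : Set (List Bool)} {c e : ℕ} (hK : InEAR O e (KL O))
    (hL : InCounted c O L) : InEAR O ((c + 2) * e + (c + 3)) L := by
  classical
  obtain ⟨V, D, ν, a, P, k, hV, hDR, hν, ha, hcnt, hx⟩ := hL
  have he : PT (fun z : (List Bool × List Bool) × (ℕ × ℕ) =>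
      encPair (encPair z.1, encPair (List.replicate z.2.1 true, List.replicate z.2.2 true))) :=
    PT_encPair (PT_encPair'.comp PT.fst) (PT_encPair (PT.replicate PT.snd.p1 (PT.const true))
      (PT.replicate PT.snd.p2 (PT.const true)))
  have hν := PT_of_TM2 he hν
  obtain ⟨v, hv, hVv⟩ := OPT_of_polyTime PT_encr hV
  obtain ⟨d, hd, hDd⟩ := OPT_of_polyTime PT_encz hDR
  have hVv' : V = fun z => v z = true := funext fun z => propext (hVv z)
  subst hVv'
  obtain ⟨WK, bK, CK, hWK, hbK, hKL⟩ := hK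
  obtain ⟨m, hm⟩ : ∃ m : ℕ → ℕ, ∀ n, m n = k * (n ^ c + 1) := ⟨_, fun _ => rfl⟩
  obtain ⟨κ, hκ⟩ := exists_poly_le (2 * (2 * Polynomial.X + 2 + (2 + P)) + 2)
  have hκ' : ∀ n, 2 * (2 * n + 2 + (2 + P.eval n)) + 2 ≤ 2 ^ (κ + n) := by
    intro n
    have := hκ n
    simpa using this
  have hcns : ∀ n i M, M = 2 ^ m n → i < M →
      (ν ((List.replicate n true, a n), (i, M))).length = cns v (P.eval n) (a n) n M i :=
    fun n i M hM hi => hcnt n M (by rw [hM, hm]) i hi
  -- the length of the instances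
  obtain ⟨Z, hZ⟩ : ∃ Z, Z = 40 * (k + κ + 1) := ⟨_, rfl⟩
  obtain ⟨Λ, hΛ⟩ : ∃ Λ : ℕ → ℕ, ∀ n, Λ n = Z * (n + 1) ^ (c + 1) := ⟨_, fun _ => rfl⟩
  have hfit : ∀ n, 6 * n + 12 * m n + 30 + κ ≤ Λ n := by
    intro n
    obtain ⟨X, hX⟩ : ∃ X, X = (n + 1) ^ (c + 1) := ⟨_, rfl⟩
    have h1 : n ^ c ≤ X := by
      rw [hX]
      exact (Nat.pow_le_pow_left (Nat.le_succ n) _).trans (Nat.pow_le_pow_right (by omega)
        (by omega))
    have h2 : n + 1 ≤ X := by rw [hX]; exact Nat.le_self_pow (by omega) _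
    have h3 : k * n ^ c ≤ k * X := Nat.mul_le_mul_left _ h1
    have h4 : k ≤ k * X := Nat.le_mul_of_pos_right _ (by omega)
    have h5 : κ ≤ κ * X := Nat.le_mul_of_pos_right _ (by omega)
    have h6 : Λ n = 40 * (k * X) + 40 * (κ * X) + 40 * X := by rw [hΛ, hZ, ← hX]; ring
    have h7 : m n = k * n ^ c + k := by rw [hm]; ring
    omega
  -- the verifier
  obtain ⟨u, K, hKc⟩ := KL_complete (OPT_VT' P k c hv hν hd) 0
  have hinst : ∀ x : List Bool,
      inst u K (Λ x.length) x (a x.length) [] ∈ KL O ↔ x ∈ L := by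
    intro x
    have hax := ha x.length
    have hf := hfit x.length
    have hκx := hκ' x.length
    have hmx := hm x.length
    obtain ⟨M, hM⟩ : ∃ M, M = 2 ^ m x.length := ⟨_, rfl⟩
    have hM' : M = 2 ^ (k * (x.length ^ c + 1)) := by rw [hM, hmx]
    have hxL := hx x M hM'
    rw [hDd] at hxL
    obtain ⟨w, hw⟩ : ∃ w, w = padTo (Λ x.length) (encPair (x, encPair (a x.length, []))) :=
      ⟨_, rfl⟩
    have hwl : w.length = Λ x.length := by
      rw [hw, length_padTo]
      rw [length_encPair, length_encPair, List.length_nil]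
      omega
    have h1 := hKc w
    rw [hwl, Nat.add_zero] at h1
    have h2 : inst u K (Λ x.length) x (a x.length) [] =
        encPair (u, encPair (w, List.replicate (K * (Λ x.length + 1)) true)) := by
      unfold inst
      rw [hw]
    rw [h2, h1]
    have hVT : ∀ y : List Bool, VT' v ν P d k c (w, y) =
        (VTp' v ν P k c x (a x.length) (unpair y).1 (unpair y).2 &&
          d ((x, a x.length), TT x (Mc (unpair y).1.length k c x.length)
            (fun l => (ν ((List.replicate x.length true, a x.length),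
              (l, Mc (unpair y).1.length k c x.length))).length) (unpair y).2
              (Mc (unpair y).1.length k c x.length))) := by
      intro y
      unfold VT'
      dsimp only
      rw [hw, unpair_padTo]
      simp only [unpair_enc]
    obtain ⟨t, ht⟩ : ∃ t : ℕ → ℕ, t = fun l => (ν ((List.replicate x.length true, a x.length),
      (l, M))).length := ⟨_, rfl⟩
    have hvs : ∀ i < M, t i = cns v (P.eval x.length) (a x.length) x.length M i := by
      intro i hi
      rw [ht]
      exact hcns _ _ _ hM hi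
    have ht' : ∀ l, (ν ((List.replicate x.length true, a x.length), (l, M))).length = t l := by
      intro l
      rw [ht]
    constructor
    · rintro ⟨y, -, hy⟩
      rw [hVT, Bool.and_eq_true] at hy
      unfold VTp' at hy
      rw [Bool.and_eq_true, decide_eq_true_eq, p2_eq] at hy
      obtain ⟨⟨h3, h4⟩, h5⟩ := hy
      have h6 : 1 ≤ 2 ^ (k * (x.length ^ c + 1)) := Nat.one_le_two_pow
      have h7 : 2 ^ (k * (x.length ^ c + 1)) ≤ (unpair y).1.length + 1 := by omega
      rw [Mc_eq h7, ← hM'] at h4 h5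
      simp only [ht'] at h4 h5
      rw [List.all_eq_true] at h4
      have h4' : ∀ i < M, chkY (vc v M (fun l => t l) (unpair y).2 i) (P.eval x.length)
          (a x.length) x.length M (t i) (nthC (unpair y).2 i) = true :=
        fun i hi => h4 i (List.mem_range.2 hi)
      rw [TT_eq (t := fun l => t l) hvs h4' _ le_rfl x rfl] at h5
      exact hxL.2 h5
    · intro hxm
      obtain ⟨y₁, h3, h4⟩ := exists_TT (v := v) (B := P.eval x.length) (n := x.length)
        (a := a x.length) (M := M) (R := M) (t := fun l => t l) hvs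
      have h7 := TT_eq (t := fun l => t l) hvs h4 _ le_rfl x rfl
      refine ⟨encPair (List.replicate M true, y₁), ?_, ?_⟩
      · rw [length_encPair, List.length_replicate]
        have e1 : 2 * (2 * x.length + 2 + (2 * M + 2 + P.eval x.length)) + 2 ≤
            2 ^ (κ + x.length + (m x.length + 2) + 1) := by
          have g1 := add_le_two_pow hκx (le_refl (2 ^ (m x.length + 2)))
          rw [pow_add 2 (m x.length) 2, ← hM] at g1
          omega
        obtain ⟨E, hE⟩ : ∃ E, E = 2 * (2 * x.length + 2 + (2 * M + 2 + P.eval x.length)) + 2 :=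
          ⟨_, rfl⟩
        rw [← hE] at h3 e1
        have e0 : 2 ^ (x.length + 1) * M ≤ 2 ^ (x.length + 1 + m x.length) := by
          rw [hM, ← pow_add]
        have e2 := mul_le_two_pow e0 e1
        obtain ⟨A, hA⟩ : ∃ A, A = 2 ^ (x.length + 1) * M * E := ⟨_, rfl⟩
        rw [← hA] at h3 e2
        obtain ⟨q, hq⟩ : ∃ q, q = x.length + 1 + m x.length +
          (κ + x.length + (m x.length + 2) + 1) := ⟨_, rfl⟩
        rw [← hq] at e2
        have e4 : 2 * A + 2 ≤ 2 ^ (q + 2) := by
          have g1 : 1 ≤ 2 ^ q := Nat.one_le_two_pow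
          rw [pow_add]
          omega
        have e5 := h3.trans (mul_le_two_pow hM.le e4)
        have e3 : 2 * M + 2 ≤ 2 ^ (m x.length + 2) := by
          rw [pow_add, ← hM]
          have : 1 ≤ M := by rw [hM]; exact Nat.one_le_two_pow
          omega
        refine (add_le_two_pow e3 e5).trans (Nat.pow_le_pow_right (by norm_num) ?_)
        omega
      · rw [hVT, unpair_enc]
        unfold VTp'
        dsimp only
        rw [List.length_replicate]
        have g6 : 1 ≤ M := by rw [hM]; exact Nat.one_le_two_pow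
        have g7 : p2 (M + 1) (k * (x.length ^ c + 1)) ≤ M := by
          rw [p2_eq, ← hM']
          omega
        have g8 : Mc M k c x.length = M := by
          rw [Mc_eq (by rw [← hM']; omega), ← hM']
        simp only [g8, ht']
        rw [h7, hxL.1 hxm, Bool.and_true, Bool.and_eq_true, decide_eq_true_eq,
          List.all_eq_true]
        refine ⟨g7, fun i hi => ?_⟩
        rw [List.mem_range] at hi
        exact h4 i hi
  -- the length of the instances of the complete language
  obtain ⟨ρ, hρ⟩ : ∃ ρ : ℕ → ℕ, ∀ n, ρ n = 2 * u.length + 2 + (2 * Λ n + 2 + K * (Λ n + 1)) :=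
    ⟨_, fun _ => rfl⟩
  obtain ⟨Z₁, hZ₁⟩ : ∃ Z₁, Z₁ = 2 * u.length + 4 + 2 * Z + K * (Z + 1) + CK := ⟨_, rfl⟩
  obtain ⟨γ, hγ⟩ : ∃ γ, γ = c := ⟨_, rfl⟩
  have hΛ2 : ∀ n, Λ n = Z * (n + 1) ^ (γ + 1) := by
    intro n
    rw [hΛ, hγ]
  have hρ1 : ∀ n, ρ n + CK ≤ (n + (Z₁ + 1)) ^ (γ + 2) := by
    intro n
    have h1 : 1 ≤ (n + 1) ^ (γ + 1) := Nat.one_le_pow _ _ (by omega)
    have h2 : ρ n + CK ≤ Z₁ * (n + 1) ^ (γ + 1) := by
      have h3 : Z₁ * (n + 1) ^ (γ + 1) = 2 * u.length * (n + 1) ^ (γ + 1) + 4 * (n + 1) ^ (γ + 1) +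
          2 * (Z * (n + 1) ^ (γ + 1)) + K * (Z * (n + 1) ^ (γ + 1) + (n + 1) ^ (γ + 1)) +
          CK * (n + 1) ^ (γ + 1) := by
        rw [hZ₁]
        ring
      have h4 : 2 * u.length ≤ 2 * u.length * (n + 1) ^ (γ + 1) :=
        Nat.le_mul_of_pos_right _ (by omega)
      have h5 : CK ≤ CK * (n + 1) ^ (γ + 1) := Nat.le_mul_of_pos_right _ (by omega)
      have h6 : K * (Λ n + 1) ≤ K * (Z * (n + 1) ^ (γ + 1) + (n + 1) ^ (γ + 1)) :=
        Nat.mul_le_mul_left _ (by rw [hΛ2]; omega)
      have h7 := hΛ2 n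
      rw [h3, hρ]
      omega
    have h3 : Z₁ * (n + 1) ^ (γ + 1) ≤ (n + (Z₁ + 1)) * (n + (Z₁ + 1)) ^ (γ + 1) :=
      Nat.mul_le_mul (by omega) (Nat.pow_le_pow_left (by omega) _)
    have h4 : (n + (Z₁ + 1)) * (n + (Z₁ + 1)) ^ (γ + 1) = (n + (Z₁ + 1)) ^ (γ + 2) := by
      rw [pow_succ _ (γ + 1), Nat.mul_comm]
    omega
  obtain ⟨C', hC'⟩ : ∃ C', C' = 2 * Z + Z₁ + 5 := ⟨_, rfl⟩
  have hρ2 : ∀ n, (ρ n + CK) ^ e ≤ (n + C') ^ ((γ + 2) * e) := by
    intro n
    calc (ρ n + CK) ^ e ≤ ((n + (Z₁ + 1)) ^ (γ + 2)) ^ e := Nat.pow_le_pow_left (hρ1 n) _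
      _ = (n + (Z₁ + 1)) ^ ((γ + 2) * e) := (pow_mul _ _ _).symm
      _ ≤ _ := Nat.pow_le_pow_left (by omega) _
  have hρ3 : ∀ n, (ρ n + CK) ^ e ≤ (n + C') ^ ((γ + 2) * e + (γ + 3)) := fun n =>
    (hρ2 n).trans (Nat.pow_le_pow_right (by omega) (by omega))
  rw [show (c + 2) * e + (c + 3) = (γ + 2) * e + (γ + 3) by rw [hγ]]
  -- the computation
  refine ⟨fun w => WK (inst u K (Λ w.1.length) w.1 (unpair w.2.1).1
    (unpair (unpair w.2.1).2).1, ((unpair (unpair w.2.1).2).2, w.2.2)),
    fun n => encPair (a n, encPair ([], bK (ρ n))), C', ?_, ?_, ?_⟩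
  · have u1 : PT (fun w : List Bool × (List Bool × ℕ) => unpair w.2.1) :=
      PT_unpair.comp PT.snd.p1
    have u2 : PT (fun w : List Bool × (List Bool × ℕ) => unpair (unpair w.2.1).2) :=
      PT_unpair.comp u1.p2
    have hΛ' : PT (fun w : List Bool × (List Bool × ℕ) => Λ w.1.length) :=
      (PT.nmul (PT.const Z) (PT_npow (PT.nsucc (PT.length PT.fst)) (c + 1))).congr
        fun w => (hΛ _).symm
    refine hWK.comp_PT (PT.pair ?_ (PT.pair u2.p2 PT.snd.p2))
    unfold inst
    exact PT_encPair (PT.const u) (PT_encPair (PT_padTo hΛ' (PT_encPair PT.fst (PT_encPair u1.p1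
      u2.p1))) (PT.replicate (PT.nmul (PT.const K) (PT.nsucc hΛ')) (PT.const true)))
  · intro n
    rw [length_encPair, length_encPair]
    have h1 := ha n
    rw [← hm] at h1
    have h2 : ([] : List Bool).length = 0 := rfl
    have h3 := hbK (ρ n)
    have h4 := hρ2 n
    have h5 := hfit n
    obtain ⟨y, hy⟩ : ∃ y, y = n + C' := ⟨_, rfl⟩
    have h7 : Λ n ≤ y ^ (γ + 2) := by
      rw [hΛ2]
      have h8 : Z * (n + 1) ^ (γ + 1) ≤ y * y ^ (γ + 1) :=
        Nat.mul_le_mul (by omega) (Nat.pow_le_pow_left (by omega) _)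
      have h9 : y * y ^ (γ + 1) = y ^ (γ + 2) := by rw [pow_succ _ (γ + 1), Nat.mul_comm]
      omega
    rw [← hy] at h4 ⊢
    have h8 : y ^ (γ + 2) ≤ y ^ ((γ + 2) * e + (γ + 2)) :=
      Nat.pow_le_pow_right (by omega) (by omega)
    have h9 : y ^ ((γ + 2) * e) ≤ y ^ ((γ + 2) * e + (γ + 2)) :=
      Nat.pow_le_pow_right (by omega) (by omega)
    have h10 : 2 * y ^ ((γ + 2) * e + (γ + 2)) ≤ y ^ ((γ + 2) * e + (γ + 3)) := by
      have h11 : y ^ ((γ + 2) * e + (γ + 3)) = y * y ^ ((γ + 2) * e + (γ + 2)) := by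
        rw [← Nat.add_assoc, pow_succ, Nat.mul_comm]
        rfl
      rw [h11]
      exact Nat.mul_le_mul_right _ (by omega)
    omega
  · intro x N hN
    dsimp only
    rw [unpair_enc, unpair_enc, ← hinst x]
    have h3 : (inst u K (Λ x.length) x (a x.length) []).length = ρ x.length := by
      rw [hρ]
      apply length_inst
      have h4 := hfit x.length
      have h5 := ha x.length
      rw [← hm] at h5
      rw [List.length_nil]
      omega
    have h4 := hKL (inst u K (Λ x.length) x (a x.length) []) N (by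
      rw [h3]
      exact (Nat.pow_le_pow_right (by norm_num) (hρ3 x.length)).trans hN)
    rw [h3] at h4
    exact h4

/-- **The lower bound.** -/
theorem lower_bound_counted (O : Set (List Bool)) (c : ℕ) :
    ∃ L, InNEXP O L ∧ ¬ InCounted c O L := by
  by_contra hcon
  push Not at hcon
  have hNE : InNEXP O (KL O) := by
    refine ⟨1, fun p => MP_92db0f_lc_gold.VK O p = true,
      MP_92db0f_lc_gold.OPT.polyTime (MP_92db0f_lc_gold.OPT_VK O), fun z => ?_⟩
    rw [pow_one]
    unfold KL
    rw [Set.mem_ofPred_eq, one_mul]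
  obtain ⟨e, he⟩ := ear_of_brute_counted (hcon (KL O) hNE)
  exact LDR_not O _ (ear_of_counted he (hcon (LDR O ((c + 2) * e + (c + 3))) (LDR_mem O _)))

end Pool.Agent.FSR
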