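import Pool.Agent.FSP.Census
import Pool.Agent.FSR.Brute

/-!
The numbers of the questions with the answer yes in every round, over all inputs of the same length,
together with certificates for all of them determine all answers.
-/

set_option autoImplicit false
set_option linter.unusedSectionVars false

namespace Pool.Agent.FSR

open Turing Computability Lib.helper60 Pool.Agent.LCB
open MP_92db0f_lc hiding answers InNEXP mkC length_mkC PT_mkC answers_take length_answers
open MP_92db0f_lc_alg (answers PolyTime InNEXP join)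
open MP_92db0f_lc_gold (OPT Meas pbMeas natPB gen length_gen length_answers answers_take)
open MP_92db0f_lc_thr (nthC mkC nthC_mkC length_mkC PT_nthC PT_of_TM2 PT_of_TM2' PT_encz)
open FSP (ent cer okE Yes Yes_finite ncard_Yes chkY chkY_iff exists_chkY tab tab_eq PT_ent PT_cer
  PT_eqe eqe PT_tab)

lemma length_ustep_fst (w : List Bool) : ∀ s : UState,
    (w.foldl ustep s).2.2.1.length ≤ s.2.2.1.length + w.length := by
  induction w with
  | nil => intro s; simp
  | cons b w ih =>
    intro s
    rw [List.foldl_cons, List.length_cons]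
    refine (ih _).trans ?_
    have h : (ustep s b).2.2.1.length ≤ s.2.2.1.length + 1 := by
      obtain ⟨mode, bit, u, v⟩ := s
      unfold ustep
      dsimp only
      split_ifs
      · simp
      · cases bit
        · cases b <;> simp
        · simp
      · simp
    omega

lemma length_unpair_fst (w : List Bool) : (unpair w).1.length ≤ w.length := by
  unfold unpair
  dsimp only
  rw [List.length_reverse]
  have := length_ustep_fst w (0, false, [], [])
  simpa using this

lemma length_nthC_le (c : List Bool) (j : ℕ) : (nthC c j).length ≤ c.length := by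
  unfold nthC
  refine (length_unpair_fst _).trans ?_
  induction j with
  | zero => exact le_rfl
  | succ j ih =>
    rw [Function.iterate_succ_apply']
    exact (MP_92db0f_lc_thr.length_unpair_snd _).trans ih

/-- the list of the answers in the first `i` rounds, from lists of entries -/
def TT (x : List Bool) (M : ℕ) (t : ℕ → ℕ) (y : List Bool) (i : ℕ) : List Bool :=
  (List.range i).flatMap fun l => tab x M (t l) (nthC y l)

lemma TT_succ (x : List Bool) (M : ℕ) (t : ℕ → ℕ) (y : List Bool) (i : ℕ) :
    TT x M t y (i + 1) = TT x M t y i ++ tab x M (t i) (nthC y i) := by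
  unfold TT
  rw [List.range_succ, List.flatMap_append, List.flatMap_singleton]

lemma TT_congr {x : List Bool} {M : ℕ} {t t' : ℕ → ℕ} {y : List Bool} :
    ∀ {i : ℕ}, (∀ l < i, t l = t' l) → TT x M t y i = TT x M t' y i := by
  intro i
  induction i with
  | zero => exact fun _ => rfl
  | succ i ih =>
    intro h
    rw [TT_succ, TT_succ, ih (fun l hl => h l (by omega)), h i (by omega)]

section

variable (v : ((List Bool × List Bool) × (ℕ × ℕ)) × (List Bool × List Bool) → Bool) (B : ℕ)

/-- the questions in the round `i`, with the true answers in the previous rounds -/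
noncomputable def vt (M i : ℕ) (w : ((List Bool × List Bool) × (ℕ × ℕ)) × List Bool) : Bool :=
  v (w.1, (roundAnswers (fun z => v z = true) B w.1.1 M i, w.2))

/-- the questions in the round `i`, with the answers from lists of entries -/
def vc (M : ℕ) (t : ℕ → ℕ) (y : List Bool) (i : ℕ)
    (w : ((List Bool × List Bool) × (ℕ × ℕ)) × List Bool) : Bool :=
  v (w.1, (TT w.1.1.1 M t y i, w.2))

/-- the number of the questions with the answer yes in the round `i` -/
noncomputable def cns (a : List Bool) (n M i : ℕ) : ℕ := (Yes (vt v B M i) B a n M).ncard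

variable {v B}

lemma okE_congr {v₁ v₂ : ((List Bool × List Bool) × (ℕ × ℕ)) × List Bool → Bool}
    {a : List Bool} {n M : ℕ} (h : ∀ (x : List Bool) (j : ℕ) (y : List Bool), x.length = n →
      v₁ (((x, a), (j, M)), y) = v₂ (((x, a), (j, M)), y)) (s : List Bool) :
    okE v₁ B a n M s = okE v₂ B a n M s := by
  unfold okE
  by_cases h1 : (ent s).1.length = n
  · rw [h _ _ _ h1]
  · rw [decide_eq_false h1, Bool.false_and, Bool.false_and]

lemma chkY_congr {v₁ v₂ : ((List Bool × List Bool) × (ℕ × ℕ)) × List Bool → Bool}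
    {a : List Bool} {n M : ℕ} (h : ∀ (x : List Bool) (j : ℕ) (y : List Bool), x.length = n →
      v₁ (((x, a), (j, M)), y) = v₂ (((x, a), (j, M)), y)) (t : ℕ) (y : List Bool) :
    chkY v₁ B a n M t y = chkY v₂ B a n M t y := by
  unfold chkY
  simp only [okE_congr h]

/-- **The lists of entries determine all answers.** -/
lemma TT_eq {a : List Bool} {n M R : ℕ} {t : ℕ → ℕ} {y : List Bool}
    (ht : ∀ i < R, t i = cns v B a n M i)
    (hc : ∀ i < R, chkY (vc v M t y i) B a n M (t i) (nthC y i) = true) :
    ∀ i ≤ R, ∀ x : List Bool, x.length = n → TT x M t y i =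
      roundAnswers (fun z => v z = true) B (x, a) M i := by
  classical
  intro i
  induction i with
  | zero => exact fun _ _ _ => rfl
  | succ i ih =>
    intro hi x hx
    have ih := ih (by omega)
    have h1 := hc i hi
    have h2 : ∀ (x : List Bool) (j : ℕ) (z : List Bool), x.length = n →
        vc v M t y i (((x, a), (j, M)), z) = vt v B M i (((x, a), (j, M)), z) := by
      intro x j z hx
      unfold vc vt
      dsimp only
      rw [ih x hx]
    rw [chkY_congr h2, ht i hi] at h1
    subst hx
    rw [TT_succ, ih x rfl, ht i hi, roundAnswers]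
    unfold cns at h1 ⊢
    rw [tab_eq h1]
    rfl

/-- the entries exist -/
lemma exists_TT {a : List Bool} {n M R : ℕ} {t : ℕ → ℕ} (ht : ∀ i < R, t i = cns v B a n M i) :
    ∃ y : List Bool, y.length ≤ R * (2 * ((2 ^ (n + 1) * M) *
        (2 * (2 * n + 2 + (2 * M + 2 + B)) + 2)) + 2) ∧
      ∀ i < R, chkY (vc v M t y i) B a n M (t i) (nthC y i) = true := by
  classical
  have h1 : ∀ i, ∃ y : List Bool, y.length ≤
      cns v B a n M i * (2 * (2 * n + 2 + (2 * M + 2 + B)) + 2) ∧
        chkY (vt v B M i) B a n M (cns v B a n M i) y = true := fun i => exists_chkY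
  choose s hs1 hs2 using h1
  have hnth : ∀ j < R, nthC (mkC s R) j = s j := fun j hj => nthC_mkC R _ j hj
  refine ⟨mkC s R, ?_, ?_⟩
  · rw [length_mkC]
    have h2 := Finset.sum_le_card_nsmul (Finset.range R) (fun j => 2 * (s j).length + 2)
      (2 * ((2 ^ (n + 1) * M) * (2 * (2 * n + 2 + (2 * M + 2 + B)) + 2)) + 2) (fun j _ => by
        have h3 := (hs1 j).trans (Nat.mul_le_mul_right _ (ncard_Yes (vt v B M j) B a n M))
        omega)
    rw [Finset.card_range, smul_eq_mul] at h2
    exact h2
  · have key : ∀ i ≤ R, (∀ l < i, chkY (vc v M t (mkC s R) l) B a n M (t l)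
        (nthC (mkC s R) l) = true) := by
      intro i
      induction i with
      | zero => exact fun _ l hl => absurd hl (Nat.not_lt_zero _)
      | succ i ih =>
        intro hi l hl
        have ih := ih (by omega)
        rcases Nat.lt_or_ge l i with h3 | h3
        · exact ih l h3
        · have h4 : l = i := by omega
          subst h4
          have h5 := TT_eq (v := v) (B := B) (a := a) (n := n) (M := M) (R := l) (t := t)
            (y := mkC s R) (fun j hj => ht j (by omega)) (fun j hj => ih j hj) l le_rfl
          have h6 : ∀ (x : List Bool) (j : ℕ) (z : List Bool), x.length = n →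
              vc v M t (mkC s R) l (((x, a), (j, M)), z) =
                vt v B M l (((x, a), (j, M)), z) := by
            intro x j z hx
            unfold vc vt
            dsimp only
            rw [h5 x hx]
          rw [chkY_congr h6, ht l (by omega), hnth l (by omega)]
          exact hs2 l
    exact key R le_rfl

end

/-! ### polynomial time with an oracle -/

section

variable {O : Set (List Bool)} {α : Type} [DEnc α] [Meas α]

lemma OPT_okE' {V : α × (((List Bool × List Bool) × (ℕ × ℕ)) × List Bool) → Bool}
    (hV : OPT O V) {a : α → List Bool} {n M B : α → ℕ} {s : α → List Bool}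
    (ha : PT a) (hn : PT n) (hM : PT M) (hB : PT B) (hs : PT s) :
    OPT O (fun b => okE (fun w => V (b, w)) (B b) (a b) (n b) (M b) (s b)) := by
  unfold okE
  have he := PT_ent hs
  exact (OPT.of_PT (PT.neq (PT.length he.p1) hn)).band ((OPT.of_PT (PT.nlt he.p2 hM)).band
    ((OPT.of_PT (PT.nle (PT.length (PT_cer hs)) hB)).band (hV.comp_PT (PT.pair PT.id (PT.pair
      (PT.pair (PT.pair he.p1 ha) (PT.pair he.p2 hM)) (PT_cer hs))))))

lemma OPT_chkY' {V : α × (((List Bool × List Bool) × (ℕ × ℕ)) × List Bool) → Bool}
    (hV : OPT O V) {a : α → List Bool} {n M t B : α → ℕ} {y : α → List Bool}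
    (ha : PT a) (hn : PT n) (hM : PT M) (hB : PT B) (ht : PT t) (hy : PT y) :
    OPT O (fun b => chkY (fun w => V (b, w)) (B b) (a b) (n b) (M b) (t b) (y b)) := by
  unfold chkY
  refine (OPT.of_PT (PT.nle ht (PT.length hy))).band ?_
  refine MP_92db0f_lc_gold.OPT.all (p := fun w : α × ℕ =>
    okE (fun q => V (w.1, q)) (B w.1) (a w.1) (n w.1) (M w.1) (nthC (y w.1) w.2) &&
      ((List.range w.2).all fun i => !eqe (nthC (y w.1) i) (nthC (y w.1) w.2))) ?_ ht
  have hj : PT (fun w : α × ℕ => nthC (y w.1) w.2) := PT_nthC (hy.comp PT.fst) PT.snd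
  refine (OPT_okE' (V := fun z : (α × ℕ) × (((List Bool × List Bool) × (ℕ × ℕ)) × List Bool) =>
    V (z.1.1, z.2)) (hV.comp_PT (PT.pair PT.fst.p1 PT.snd)) (ha.comp PT.fst) (hn.comp PT.fst)
      (hM.comp PT.fst) (hB.comp PT.fst) hj).band (OPT.of_PT ?_)
  refine PT.all (p := fun w : (α × ℕ) × ℕ => !eqe (nthC (y w.1.1) w.2)
    (nthC (y w.1.1) w.1.2)) (PT.range PT.snd) ?_
  exact PT.bnot (PT_eqe (PT_nthC (hy.comp PT.fst.p1) PT.snd) (hj.comp PT.fst))

omit [Meas α] in
lemma PT_TT {x y σ : α → List Bool} {M cap i : α → ℕ} (hx : PT x) (hM : PT M) (hσ : PT σ)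
    (hcap : PT cap) (hy : PT y) (hi : PT i) :
    PT (fun b => TT (x b) (M b) (fun l => vlc (cap b) (nthC (σ b) l)) (y b) (i b)) := by
  unfold TT
  refine PT.flatMap (g := fun w : α × ℕ => tab (x w.1) (M w.1)
    (vlc (cap w.1) (nthC (σ w.1) w.2)) (nthC (y w.1) w.2)) (PT.range hi) ?_
  exact PT_tab (hx.comp PT.fst) (hM.comp PT.fst) (PT_vlc (hcap.comp PT.fst) (PT_nthC
    (hσ.comp PT.fst) PT.snd)) (PT_nthC (hy.comp PT.fst) PT.snd)

end

end Pool.Agent.FSR
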