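import Pool.Agent.FSR.Counted
import Pool.Agent.FSR.Conv

/-!
If there are `O(n ^ c)` rounds, then the numbers of the answers yes fit into the advice.
-/

set_option autoImplicit false
set_option linter.unusedSectionVars false

namespace Pool.Agent.FSR

open Turing Computability Lib.helper60 Function Pool.Agent.LCB
open MP_92db0f_lc hiding answers InNEXP mkC length_mkC PT_mkC answers_take length_answers KL
  KL_complete KL_mem poly_le_pow
open MP_92db0f_lc_alg (answers PolyTime InNEXP join)
open MP_92db0f_lc_gold (OPT Meas pbMeas natPB gen length_gen length_answers answers_take)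
open MP_92db0f_lc_thr (nthC mkC nthC_mkC length_mkC PT_nthC PT_of_TM2 PT_of_TM2' PT_encz
  PT_encPair')
open FSP (Mc Mc_eq PT_Mc Yes ncard_Yes polyTime_of_OPT meas_encz)

/-- the first `M` answers in each of the first `i` rounds, in a list with `M'` answers in every
round -/
def dn (M M' i : ℕ) (T : List Bool) : List Bool :=
  (List.range i).flatMap fun l => (T.drop (l * M')).take M

lemma dn_succ (M M' i : ℕ) (T : List Bool) :
    dn M M' (i + 1) T = dn M M' i T ++ (T.drop (i * M')).take M := by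
  unfold dn
  rw [List.range_succ, List.flatMap_append, List.flatMap_singleton]

lemma dn_short {M M' i : ℕ} {T : List Bool} (hT : T.length ≤ i * M') :
    ∀ R, i ≤ R → dn M M' R T = dn M M' i T := by
  intro R
  induction R with
  | zero =>
    intro h
    rw [Nat.le_zero.1 h]
  | succ R ih =>
    intro h
    rcases Nat.lt_or_ge R i with h1 | h1
    · have h2 : i = R + 1 := by omega
      rw [h2]
    · rw [dn_succ, ih h1, List.drop_eq_nil_of_le (hT.trans (Nat.mul_le_mul_right _ h1)),
        List.take_nil, List.append_nil]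

lemma dn_append {M M' : ℕ} (hM : M ≤ M') {T : List Bool} (S : List Bool) :
    ∀ i, i * M' ≤ T.length → dn M M' i (T ++ S) = dn M M' i T := by
  intro i
  induction i with
  | zero => exact fun _ => rfl
  | succ i ih =>
    intro h
    have h1 : (i + 1) * M' = i * M' + M' := by ring
    rw [dn_succ, dn_succ, ih (by omega), List.drop_append_of_le_length (by omega),
      List.take_append_of_le_length]
    rw [List.length_drop]
    omega

section

variable (V : ((List Bool × List Bool) × (ℕ × ℕ)) × (List Bool × List Bool) → Prop)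
  (B R M M' : ℕ)

open Classical in
/-- the answers with superfluous questions and rounds -/
lemma dn_roundAnswers
    (V' : ((List Bool × List Bool) × (ℕ × ℕ)) × (List Bool × List Bool) → Prop)
    (xa xa' : List Bool × List Bool) (hM : M ≤ M')
    (h : ∀ (j : ℕ) (T y : List Bool), V' ((xa', (j, M')), (T, y)) ↔ T.length < R * M' ∧ j < M ∧
      V ((xa, (j, M)), (dn M M' R T, y))) (hM' : 0 < M') :
    ∀ i ≤ R, dn M M' i (roundAnswers V' B xa' M' i) = roundAnswers V B xa M i := by
  intro i
  induction i with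
  | zero => exact fun _ => rfl
  | succ i ih =>
    intro hi
    have ih := ih (by omega)
    have hlen := length_roundAnswers V' B xa' M' i
    rw [roundAnswers, roundAnswers, dn_succ, dn_append hM _ _ hlen.ge, ih]
    congr 1
    rw [← hlen, List.drop_left, ← List.map_take, List.take_range, Nat.min_eq_left hM]
    apply List.map_congr_left
    intro j hj
    rw [List.mem_range] at hj
    rw [decide_eq_decide]
    have h1 : dn M M' R (roundAnswers V' B xa' M' i) = roundAnswers V B xa M i := by
      rw [dn_short hlen.le R (by omega), ih]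
    have h2 : (roundAnswers V' B xa' M' i).length < R * M' := by
      rw [hlen]
      exact Nat.mul_lt_mul_of_pos_right hi hM'
    constructor
    · rintro ⟨y, hy1, hy2⟩
      rw [h, h1] at hy2
      exact ⟨y, hy1, hy2.2.2⟩
    · rintro ⟨y, hy1, hy2⟩
      refine ⟨y, hy1, ?_⟩
      rw [h, h1]
      exact ⟨h2, hj, hy2⟩

lemma dn_roundAnswers_ge
    (V' : ((List Bool × List Bool) × (ℕ × ℕ)) × (List Bool × List Bool) → Prop)
    (xa xa' : List Bool × List Bool) (hM : M ≤ M')
    (h : ∀ (j : ℕ) (T y : List Bool), V' ((xa', (j, M')), (T, y)) ↔ T.length < R * M' ∧ j < M ∧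
      V ((xa, (j, M)), (dn M M' R T, y))) (hM' : 0 < M') (i : ℕ) :
    dn M M' R (roundAnswers V' B xa' M' (R + i)) = roundAnswers V B xa M R := by
  classical
  induction i with
  | zero =>
    rw [Nat.add_zero]
    exact dn_roundAnswers V B R M M' V' xa xa' hM h hM' R le_rfl
  | succ i ih =>
    rw [← Nat.add_assoc, roundAnswers, dn_append hM, ih]
    rw [length_roundAnswers]
    exact Nat.mul_le_mul_right _ (by omega)

end

lemma bound_y (k n c : ℕ) : (k * (n ^ c + 1)) * (2 * n + 2 * (k * (n ^ c + 1)) + 6) +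
    2 * (k * (n ^ c + 1)) + 2 * n + 10 ≤ (8 * k ^ 2 + 24 * k + 12) * (n ^ (2 * c + 1) + 1) := by
  obtain ⟨X, hX⟩ : ∃ X, X = n ^ c := ⟨_, rfl⟩
  obtain ⟨y, hy⟩ : ∃ y, y = n ^ (2 * c + 1) + 1 := ⟨_, rfl⟩
  have h0 : n ^ (2 * c + 1) = n * (X * X) := by
    rw [hX, pow_succ, two_mul, pow_add]
    ring
  have h1 : n ≤ y ∧ X ≤ y ∧ n * X ≤ y ∧ X * X ≤ y := by
    rcases Nat.eq_zero_or_pos n with h | h
    · have h2 : X ≤ 1 := by
        rw [hX, h]
        rcases Nat.eq_zero_or_pos c with h3 | h3
        · rw [h3, pow_zero]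
        · rw [Nat.zero_pow h3]
          omega
      have h4 : X * X ≤ 1 := Nat.mul_le_mul h2 h2
      have h5 : n * X = 0 := by rw [h, Nat.zero_mul]
      omega
    · have h2 : 1 ≤ X := by rw [hX]; exact Nat.one_le_pow _ _ h
      have h3 : 1 ≤ X * X := Nat.mul_pos h2 h2
      have h4 : n ≤ n * (X * X) := Nat.le_mul_of_pos_right _ h3
      have h5 : X * X ≤ n * (X * X) := Nat.le_mul_of_pos_left _ h
      have h6 : X ≤ X * X := Nat.le_mul_of_pos_left _ h2
      have h7 : n * X ≤ n * (X * X) := Nat.mul_le_mul_left _ h6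
      rw [hy, h0]
      omega
  obtain ⟨h2, h3, h4, h5⟩ := h1
  have h6 : 1 ≤ y := by omega
  rw [← hX, ← hy]
  have e1 : (k * (X + 1)) * (2 * n + 2 * (k * (X + 1)) + 6) + 2 * (k * (X + 1)) + 2 * n + 10 =
      2 * (k * (n * X)) + 2 * (k * n) + 8 * (k * X) + 8 * k + 2 * (k ^ 2 * (X * X)) +
        4 * (k ^ 2 * X) + 2 * k ^ 2 + 2 * n + 10 := by ring
  have e2 : (8 * k ^ 2 + 24 * k + 12) * y = 8 * (k ^ 2 * y) + 24 * (k * y) + 12 * y := by ring
  have f1 : k * (n * X) ≤ k * y := Nat.mul_le_mul_left _ h4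
  have f2 : k * n ≤ k * y := Nat.mul_le_mul_left _ h2
  have f3 : k * X ≤ k * y := Nat.mul_le_mul_left _ h3
  have f4 : k ≤ k * y := Nat.le_mul_of_pos_right _ h6
  have f5 : k ^ 2 * (X * X) ≤ k ^ 2 * y := Nat.mul_le_mul_left _ h5
  have f6 : k ^ 2 * X ≤ k ^ 2 * y := Nat.mul_le_mul_left _ h3
  have f7 : k ^ 2 ≤ k ^ 2 * y := Nat.le_mul_of_pos_right _ h6
  omega

section

variable {α : Type} [DEnc α]

lemma PT_dn {M M' i : α → ℕ} {T : α → List Bool} (hM : PT M) (hM' : PT M') (hi : PT i)
    (hT : PT T) : PT (fun b => dn (M b) (M' b) (i b) (T b)) := by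
  unfold dn
  refine PT.flatMap (g := fun w : α × ℕ => ((T w.1).drop (w.2 * M' w.1)).take (M w.1))
    (PT.range hi) ?_
  exact PT_take (hM.comp PT.fst) (PT.drop (PT.nmul PT.snd (hM'.comp PT.fst)) (hT.comp PT.fst))

end

/-- decoding of the arguments of the counting function -/
def decn (w : List Bool) : (List Bool × List Bool) × (ℕ × ℕ) :=
  (unpair (unpair w).1, ((unpair (unpair w).2).1.length, (unpair (unpair w).2).2.length))

lemma PT_decn : PT decn :=
  PT.pair (PT_unpair.comp PT_unpair.p1) (PT.pair (PT.length (PT_unpair.comp PT_unpair.p2).p1)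
    (PT.length (PT_unpair.comp PT_unpair.p2).p2))

/-- **Few rounds.** -/
theorem counted_of_rounds {O L : Set (List Bool)} {c : ℕ} (hL : InRounds c O L) :
    InCounted (2 * c + 1) O L := by
  classical
  obtain ⟨V, D, a, P, k, hV, hD, ha, hx⟩ := hL
  obtain ⟨v, hv, hVv⟩ := OPT_of_polyTime PT_encr hV
  obtain ⟨d, hd, hDd⟩ := OPT_of_polyTime PT_encz hD
  obtain ⟨K, hK⟩ : ∃ K, K = 8 * k ^ 2 + 24 * k + 12 := ⟨_, rfl⟩
  obtain ⟨σ, hσ⟩ : ∃ σ : ℕ → List Bool, ∀ n,
    σ n = mkC (fun i => str (yesCount V (P.eval n) (a n) n (2 ^ (k * (n ^ c + 1))) i))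
      (k * (n ^ c + 1)) := ⟨_, fun _ => rfl⟩
  have hD' : ∀ n i M, yesCount V (P.eval n) (a n) n M i ≤ 2 ^ (n + 1) * M := by
    intro n i M
    have h1 := ncard_Yes (vt v (P.eval n) M i) (P.eval n) (a n) n M
    have h2 : V = fun z => v z = true := funext fun z => propext (hVv z)
    rw [h2]
    exact h1
  have hσl : ∀ n, (σ n).length ≤
      (k * (n ^ c + 1)) * (2 * n + 2 * (k * (n ^ c + 1)) + 6) := by
    intro n
    rw [hσ, length_mkC]
    have h2 := Finset.sum_le_card_nsmul (Finset.range (k * (n ^ c + 1))) (fun j =>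
      2 * (str (yesCount V (P.eval n) (a n) n (2 ^ (k * (n ^ c + 1))) j)).length + 2)
      (2 * n + 2 * (k * (n ^ c + 1)) + 6) (fun j _ => by
        have h3 := hD' n j (2 ^ (k * (n ^ c + 1)))
        rw [← pow_add] at h3
        have h4 := length_str_le h3
        omega)
    rw [Finset.card_range, smul_eq_mul] at h2
    exact h2
  -- the questions
  obtain ⟨v', hv'⟩ : ∃ v' : ((List Bool × List Bool) × (ℕ × ℕ)) × (List Bool × List Bool) → Bool,
    v' = fun z => decide (z.2.1.length < k * (z.1.1.1.length ^ c + 1) * z.1.2.2) &&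
      (decide (z.1.2.1 < Mc z.1.2.2 k c z.1.1.1.length) &&
        v (((z.1.1.1, (unpair z.1.1.2).1), (z.1.2.1, Mc z.1.2.2 k c z.1.1.1.length)),
          (dn (Mc z.1.2.2 k c z.1.1.1.length) z.1.2.2 (k * (z.1.1.1.length ^ c + 1)) z.2.1,
            z.2.2))) := ⟨_, rfl⟩
  have hR {β : Type} [DEnc β] {x : β → List Bool} (hx : PT x) :
      PT (fun z => k * ((x z).length ^ c + 1)) :=
    PT.nmul (PT.const k) (PT.nsucc (PT_npow (PT.length hx) c))
  have hv'O : OPT O v' := by
    rw [hv']
    have h1 : PT (fun z : ((List Bool × List Bool) × (ℕ × ℕ)) × (List Bool × List Bool) =>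
      Mc z.1.2.2 k c z.1.1.1.length) := PT_Mc PT.fst.p2.p2 (PT.length PT.fst.p1.p1) k c
    exact (OPT.of_PT (PT.nlt (PT.length PT.snd.p1) (PT.nmul (hR PT.fst.p1.p1)
      PT.fst.p2.p2))).band ((OPT.of_PT (PT.nlt PT.fst.p2.p1 h1)).band (hv.comp_PT (PT.pair
        (PT.pair (PT.pair PT.fst.p1.p1 (PT_unpair.comp PT.fst.p1.p2).p1) (PT.pair PT.fst.p2.p1
          h1)) (PT.pair (PT_dn h1 PT.fst.p2.p2 (hR PT.fst.p1.p1) PT.snd.p1) PT.snd.p2))))
  -- the decision
  obtain ⟨d', hd'⟩ : ∃ d' : (List Bool × List Bool) × List Bool → Bool, d' = fun z =>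
    d ((z.1.1, (unpair z.1.2).1), dn (Mc (Mc z.2.length K (2 * c + 1) z.1.1.length) k c
      z.1.1.length) (Mc z.2.length K (2 * c + 1) z.1.1.length) (k * (z.1.1.length ^ c + 1))
        z.2) := ⟨_, rfl⟩
  have hd'O : OPT O d' := by
    rw [hd']
    have h1 : PT (fun z : (List Bool × List Bool) × List Bool =>
      Mc z.2.length K (2 * c + 1) z.1.1.length) :=
        PT_Mc (PT.length PT.snd) (PT.length PT.fst.p1) K (2 * c + 1)
    exact hd.comp_PT (PT.pair (PT.pair PT.fst.p1 (PT_unpair.comp PT.fst.p2).p1)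
      (PT_dn (PT_Mc h1 (PT.length PT.fst.p1) k c) h1 (hR PT.fst.p1) PT.snd))
  -- the numbers
  obtain ⟨ν, hν⟩ : ∃ ν : (List Bool × List Bool) × (ℕ × ℕ) → List Bool, ν = fun z =>
    bif decide (z.2.1 < k * (z.1.1.length ^ c + 1)) then
      List.replicate (vlc z.2.2 (nthC (unpair z.1.2).2 z.2.1)) true else [] := ⟨_, rfl⟩
  have hνPT : PT ν := by
    rw [hν]
    exact PT.cond (PT.nlt PT.snd.p1 (hR PT.fst.p1)) (PT.replicate (PT_vlc PT.snd.p2
      (PT_nthC (PT_unpair.comp PT.fst.p2).p2 PT.snd.p1)) (PT.const true)) (PT.const [])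
  have hpow : ∀ n, n + 1 + k * (n ^ c + 1) ≤ K * (n ^ (2 * c + 1) + 1) := by
    intro n
    have h1 := bound_y k n c
    rw [← hK] at h1
    omega
  refine ⟨fun z => v' z = true, fun z => d' z = true, ν, fun n => encPair (a n, σ n), P, K,
    polyTime_of_OPT PT_decr decr_encr meas_encr hv'O,
    polyTime_of_OPT MP_92db0f_lc_gold.PT_dec3 (fun z => MP_92db0f_lc_gold.dec3_enc3 z) meas_encz
      hd'O, PT.toTM2 (F := fun w => ν (decn w)) (hνPT.comp PT_decn) (fun z => ?_), fun n => ?_,
        fun n M' hM' i hi => ?_, fun x M' hM' => ?_⟩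
  · unfold decn
    simp only [unpair_enc, List.length_replicate]
  · rw [length_encPair]
    have h1 := bound_y k n c
    have h2 := hσl n
    have h3 := ha n
    rw [← hK] at h1
    omega
  · obtain ⟨M, hM⟩ : ∃ M, M = 2 ^ (k * (n ^ c + 1)) := ⟨_, rfl⟩
    have hMM : 2 ^ (n + 1) * M ≤ M' := by
      rw [hM, hM', ← pow_add]
      exact Nat.pow_le_pow_right (by norm_num) (hpow n)
    have hMle : M ≤ M' := (Nat.le_mul_of_pos_left _ (Nat.two_pow_pos _)).trans hMM
    have hM1 : 1 ≤ M := by rw [hM]; exact Nat.one_le_two_pow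
    have hMc : Mc M' k c n = M := by
      rw [hM]
      exact Mc_eq (by rw [← hM]; omega)
    have hiff : ∀ z : List Bool, z.length = n → ∀ (j : ℕ) (T y : List Bool),
        v' (((z, encPair (a n, σ n)), (j, M')), (T, y)) = true ↔
          T.length < k * (n ^ c + 1) * M' ∧ j < M ∧
            V (((z, a n), (j, M)), (dn M M' (k * (n ^ c + 1)) T, y)) := by
      intro z hz j T y
      rw [hv', hVv]
      dsimp only
      rw [hz, hMc, unpair_enc, Bool.and_eq_true, Bool.and_eq_true, decide_eq_true_iff,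
        decide_eq_true_iff]
    rw [hν]
    dsimp only
    rw [List.length_replicate, unpair_enc]
    rcases Nat.lt_or_ge i (k * (n ^ c + 1)) with h1 | h1
    · rw [decide_eq_true h1, cond_true, List.length_replicate, hσ, nthC_mkC _ _ _ h1, vlc_eq,
        vl_str, ← hM]
      have h2 := hD' n i M
      have h3 : yesCount (fun z => v' z = true) (P.eval n) (encPair (a n, mkC (fun i =>
          str (yesCount V (P.eval n) (a n) n M i)) (k * (n ^ c + 1)))) n M' i =
          yesCount V (P.eval n) (a n) n M i := by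
        have hσ' := hσ n
        rw [← hM] at hσ'
        rw [← hσ']
        unfold yesCount
        congr 1
        ext z
        rw [Set.mem_ofPred_eq, Set.mem_ofPred_eq]
        constructor
        · rintro ⟨e1, e2, y, e3, e4⟩
          have e5 := (hiff z.1 e1 _ _ _).1 e4
          have e6 := dn_roundAnswers V (P.eval n) (k * (n ^ c + 1)) M M'
            (fun z => v' z = true) (z.1, a n) (z.1, encPair (a n, σ n)) hMle
            (fun j T y => hiff z.1 e1 j T y) (by omega) i h1.le
          rw [dn_short (length_roundAnswers _ _ _ _ _).le _ h1.le, e6] at e5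
          exact ⟨e1, e5.2.1, y, e3, e5.2.2⟩
        · rintro ⟨e1, e2, y, e3, e4⟩
          refine ⟨e1, by omega, y, e3, ?_⟩
          have e6 := dn_roundAnswers V (P.eval n) (k * (n ^ c + 1)) M M'
            (fun z => v' z = true) (z.1, a n) (z.1, encPair (a n, σ n)) hMle
            (fun j T y => hiff z.1 e1 j T y) (by omega) i h1.le
          refine (hiff z.1 e1 _ _ _).2 ?_
          rw [dn_short (length_roundAnswers _ _ _ _ _).le _ h1.le, e6, length_roundAnswers]
          exact ⟨Nat.mul_lt_mul_of_pos_right h1 (by omega), e2, e4⟩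
      rw [h3]
      omega
    · rw [decide_eq_false (by omega), cond_false, List.length_nil]
      unfold yesCount
      have h2 : {z : List Bool × ℕ | z.1.length = n ∧ z.2 < M' ∧ ∃ y : List Bool,
          y.length ≤ P.eval n ∧ v' (((z.1, encPair (a n, σ n)), (z.2, M')),
            (roundAnswers (fun z => v' z = true) (P.eval n) (z.1, encPair (a n, σ n)) M' i, y)) =
              true} = ∅ := by
        ext z
        rw [Set.mem_ofPred_eq]
        constructor
        · rintro ⟨e1, -, y, -, e4⟩
          have e5 := ((hiff z.1 e1 _ _ _).1 e4).1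
          rw [length_roundAnswers] at e5
          have e6 : k * (n ^ c + 1) * M' ≤ i * M' := Nat.mul_le_mul_right _ h1
          omega
        · exact fun h => absurd h (Set.notMem_empty _)
      rw [h2, Set.ncard_empty]
  · obtain ⟨M, hM⟩ : ∃ M, M = 2 ^ (k * (x.length ^ c + 1)) := ⟨_, rfl⟩
    have hMM : 2 ^ (x.length + 1) * M ≤ M' := by
      rw [hM, hM', ← pow_add]
      exact Nat.pow_le_pow_right (by norm_num) (hpow x.length)
    have hMle : M ≤ M' := (Nat.le_mul_of_pos_left _ (Nat.two_pow_pos _)).trans hMM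
    have hM1 : 1 ≤ M := by rw [hM]; exact Nat.one_le_two_pow
    have hMc : Mc M' k c x.length = M := by
      rw [hM]
      exact Mc_eq (by rw [← hM]; omega)
    have hiff : ∀ (j : ℕ) (T y : List Bool),
        v' (((x, encPair (a x.length, σ x.length)), (j, M')), (T, y)) = true ↔
          T.length < k * (x.length ^ c + 1) * M' ∧ j < M ∧
            V (((x, a x.length), (j, M)), (dn M M' (k * (x.length ^ c + 1)) T, y)) := by
      intro j T y
      rw [hv', hVv]
      dsimp only
      rw [hMc, unpair_enc, Bool.and_eq_true, Bool.and_eq_true, decide_eq_true_iff,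
        decide_eq_true_iff]
    have hRM : k * (x.length ^ c + 1) ≤ M' := by
      have h1 : k * (x.length ^ c + 1) < M := by rw [hM]; exact Nat.lt_two_pow_self
      omega
    obtain ⟨r, hr⟩ : ∃ r, M' = k * (x.length ^ c + 1) + r := ⟨M' - k * (x.length ^ c + 1), by omega⟩
    have h1 := dn_roundAnswers_ge V (P.eval x.length) (k * (x.length ^ c + 1)) M M'
      (fun z => v' z = true) (x, a x.length) (x, encPair (a x.length, σ x.length)) hMle hiff
      (by omega) r
    rw [← hr] at h1
    have h2 : Mc (M' * M') K (2 * c + 1) x.length = M' := by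
      rw [hM']
      apply Mc_eq
      rw [← hM']
      have : M' ≤ M' * M' := Nat.le_mul_of_pos_left _ (by omega)
      omega
    rw [hd', hx x M hM, hDd]
    dsimp only
    rw [length_roundAnswers, h2, hMc, h1, unpair_enc]

end Pool.Agent.FSR
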