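import Pool.Agent.FSP.Main
import Pool.Agent.FSR.Census

/-!
For every oracle: `NEXP` is not contained in the languages decided in time `2 ^ O(n ^ c)` with
`O(n ^ c)` bits of advice and `O(n ^ c)` rounds of parallel queries of polynomial length to an
oracle in `NP`.
-/

set_option autoImplicit false
set_option linter.unusedSectionVars false

namespace Pool.Agent.FSR

open Turing Computability Lib.helper60 Function Pool.Agent.LCB
open MP_92db0f_lc hiding answers InNEXP mkC length_mkC PT_mkC answers_take length_answers KL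
  KL_complete KL_mem poly_le_pow
open MP_92db0f_lc_alg (answers PolyTime InNEXP join)
open MP_92db0f_lc_gold (OPT Meas pbMeas natPB gen length_gen length_answers answers_take KL
  KL_complete KL_mem)
open MP_92db0f_lc_thr (nthC mkC nthC_mkC length_mkC PT_nthC PT_of_TM2 PT_of_TM2' PT_encz padTo
  length_padTo unpair_padTo PT_padTo PT_encPair')
open FSP (Mc Mc_eq PT_Mc inst length_inst chkY chkY_iff ncard_Yes tab)

/-- the verifier, with its inputs decoded -/
def VTp (v : ((List Bool × List Bool) × (ℕ × ℕ)) × (List Bool × List Bool) → Bool)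
    (P : Polynomial ℕ) (k c : ℕ) (x a σ y₀ y₁ : List Bool) : Bool :=
  decide (p2 (y₀.length + 1) (k * (x.length ^ c + 1)) ≤ y₀.length) &&
    (List.range (k * (x.length ^ c + 1))).all fun i =>
      chkY (vc v (Mc y₀.length k c x.length) (fun l => vlc (y₁.length + 1) (nthC σ l)) y₁ i)
        (P.eval x.length) a x.length (Mc y₀.length k c x.length)
          (vlc (y₁.length + 1) (nthC σ i)) (nthC y₁ i)

/-- the verifier -/
def VT (v : ((List Bool × List Bool) × (ℕ × ℕ)) × (List Bool × List Bool) → Bool)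
    (P : Polynomial ℕ) (d : (List Bool × List Bool) × List Bool → Bool) (k c : ℕ)
    (z : List Bool × List Bool) : Bool :=
  VTp v P k c (unpair (unpair z.1).1).1 (unpair (unpair (unpair z.1).1).2).1
    (unpair (unpair (unpair z.1).1).2).2 (unpair z.2).1 (unpair z.2).2 &&
  d (((unpair (unpair z.1).1).1, (unpair (unpair (unpair z.1).1).2).1),
    TT (unpair (unpair z.1).1).1 (Mc (unpair z.2).1.length k c (unpair (unpair z.1).1).1.length)
      (fun l => vlc ((unpair z.2).2.length + 1) (nthC (unpair (unpair (unpair z.1).1).2).2 l))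
      (unpair z.2).2 (k * ((unpair (unpair z.1).1).1.length ^ c + 1)))

lemma OPT_VT {O : Set (List Bool)}
    {v : ((List Bool × List Bool) × (ℕ × ℕ)) × (List Bool × List Bool) → Bool}
    (P : Polynomial ℕ) {d : (List Bool × List Bool) × List Bool → Bool} (k c : ℕ) (hv : OPT O v)
    (hd : OPT O d) : OPT O (VT v P d k c) := by
  unfold VT VTp
  have u0 : PT (fun z : List Bool × List Bool => unpair z.1) := PT_unpair.comp PT.fst
  have u1 : PT (fun z : List Bool × List Bool => unpair (unpair z.1).1) := PT_unpair.comp u0.p1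
  have u2 : PT (fun z : List Bool × List Bool => unpair (unpair (unpair z.1).1).2) :=
    PT_unpair.comp u1.p2
  have w : PT (fun z : List Bool × List Bool => unpair z.2) := PT_unpair.comp PT.snd
  have hM : PT (fun z : List Bool × List Bool => Mc (unpair z.2).1.length k c
      (unpair (unpair z.1).1).1.length) := PT_Mc (PT.length w.p1) (PT.length u1.p1) k c
  have hR : PT (fun z : List Bool × List Bool =>
      k * ((unpair (unpair z.1).1).1.length ^ c + 1)) :=
    PT.nmul (PT.const k) (PT.nsucc (PT_npow (PT.length u1.p1) c))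
  have hcap : PT (fun z : List Bool × List Bool => (unpair z.2).2.length + 1) :=
    PT.nsucc (PT.length w.p2)
  refine ((OPT.of_PT (PT.nle (PT_p2 (PT.nsucc (PT.length w.p1)) (PT.nmul (PT.const k)
    (PT.nsucc (PT_npow (PT.length u1.p1) c)))) (PT.length w.p1))).band ?_).band ?_
  · refine MP_92db0f_lc_gold.OPT.all (p := fun z : (List Bool × List Bool) × ℕ =>
      chkY (vc v (Mc (unpair z.1.2).1.length k c (unpair (unpair z.1.1).1).1.length)
        (fun l => vlc ((unpair z.1.2).2.length + 1)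
          (nthC (unpair (unpair (unpair z.1.1).1).2).2 l)) (unpair z.1.2).2 z.2)
        (P.eval (unpair (unpair z.1.1).1).1.length) (unpair (unpair (unpair z.1.1).1).2).1
        (unpair (unpair z.1.1).1).1.length
        (Mc (unpair z.1.2).1.length k c (unpair (unpair z.1.1).1).1.length)
        (vlc ((unpair z.1.2).2.length + 1) (nthC (unpair (unpair (unpair z.1.1).1).2).2 z.2))
        (nthC (unpair z.1.2).2 z.2)) ?_ hR
    refine OPT_chkY' (V := fun y : ((List Bool × List Bool) × ℕ) ×
        (((List Bool × List Bool) × (ℕ × ℕ)) × List Bool) =>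
      vc v (Mc (unpair y.1.1.2).1.length k c (unpair (unpair y.1.1.1).1).1.length)
        (fun l => vlc ((unpair y.1.1.2).2.length + 1)
          (nthC (unpair (unpair (unpair y.1.1.1).1).2).2 l)) (unpair y.1.1.2).2 y.1.2 y.2) ?_
      (u2.comp PT.fst).p1 (PT.length (u1.comp PT.fst).p1) (hM.comp PT.fst)
      (PT_peval P (PT.length (u1.comp PT.fst).p1))
      (PT_vlc (hcap.comp PT.fst) (PT_nthC (u2.comp PT.fst).p2 PT.snd))
      (PT_nthC (w.comp PT.fst).p2 PT.snd)
    unfold vc
    exact hv.comp_PT (PT.pair PT.snd.p1 (PT.pair (PT_TT PT.snd.p1.p1.p1 (hM.comp PT.fst.p1)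
      (u2.comp PT.fst.p1).p2 (hcap.comp PT.fst.p1) (w.comp PT.fst.p1).p2 PT.fst.p2) PT.snd.p2))
  · exact hd.comp_PT (PT.pair (PT.pair u1.p1 u2.p1) (PT_TT u1.p1 hM u2.p2 hcap w.p2 hR))

/-- **The main step.** -/
theorem ear_of_rounds {O L : Set (List Bool)} {c e : ℕ} (hK : InEAR O e (KL O))
    (hL : InRounds c O L) : InEAR O ((2 * c + 3) * e + (2 * c + 4)) L := by
  classical
  obtain ⟨V, D, a, P, k, hV, hDR, ha, hx⟩ := hL
  obtain ⟨v, hv, hVv⟩ := OPT_of_polyTime PT_encr hV
  obtain ⟨d, hd, hDd⟩ := OPT_of_polyTime PT_encz hDR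
  have hVv' : V = fun z => v z = true := funext fun z => propext (hVv z)
  subst hVv'
  obtain ⟨WK, bK, CK, hWK, hbK, hKL⟩ := hK
  obtain ⟨m, hm⟩ : ∃ m : ℕ → ℕ, ∀ n, m n = k * (n ^ c + 1) := ⟨_, fun _ => rfl⟩
  obtain ⟨κ, hκ⟩ := exists_poly_le (2 * (2 * Polynomial.X + 2 + (2 + P)) + 2)
  have hκ' : ∀ n, 2 * (2 * n + 2 + (2 + P.eval n)) + 2 ≤ 2 ^ (κ + n) := by
    intro n
    have := hκ n
    simpa using this
  -- the census
  obtain ⟨σ, hσ⟩ : ∃ σ : ℕ → List Bool, ∀ n,
    σ n = mkC (fun i => str (cns v (P.eval n) (a n) n (2 ^ m n) i)) (m n) := ⟨_, fun _ => rfl⟩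
  have hD : ∀ n i, cns v (P.eval n) (a n) n (2 ^ m n) i ≤ 2 ^ (n + 1 + m n) := by
    intro n i
    rw [pow_add]
    exact ncard_Yes _ (P.eval n) (a n) n (2 ^ m n)
  have hσl : ∀ n, (σ n).length ≤ m n * (2 * n + 2 * m n + 6) := by
    intro n
    rw [hσ, length_mkC]
    have h2 := Finset.sum_le_card_nsmul (Finset.range (m n)) (fun j =>
      2 * (str (cns v (P.eval n) (a n) n (2 ^ m n) j)).length + 2) (2 * n + 2 * m n + 6)
      (fun j _ => by
        have h3 := length_str_le (hD n j)
        omega)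
    rw [Finset.card_range, smul_eq_mul] at h2
    exact h2
  -- the length of the instances
  obtain ⟨Z, hZ⟩ : ∃ Z, Z = 200 * (k + κ + 1) ^ 2 := ⟨_, rfl⟩
  obtain ⟨Λ, hΛ⟩ : ∃ Λ : ℕ → ℕ, ∀ n, Λ n = Z * (n + 1) ^ (2 * c + 2) := ⟨_, fun _ => rfl⟩
  have hfit : ∀ n, 6 * n + 12 * m n + 30 + κ + 2 * (m n * (2 * n + 2 * m n + 6)) ≤ Λ n := by
    intro n
    obtain ⟨X, hX⟩ : ∃ X, X = (n + 1) ^ (c + 1) := ⟨_, rfl⟩
    have h1 : n ^ c ≤ X := by
      rw [hX]
      exact (Nat.pow_le_pow_left (Nat.le_succ n) _).trans (Nat.pow_le_pow_right (by omega)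
        (by omega))
    have h2 : n + 1 ≤ X := by rw [hX]; exact Nat.le_self_pow (by omega) _
    have h3 : Λ n = 200 * (k + κ + 1) ^ 2 * (X * X) := by
      rw [hΛ, hZ, hX, ← pow_add]
      congr 2
      omega
    have h4 : m n ≤ 2 * (k + κ + 1) * X := by
      rw [hm]
      have h5 : k * (n ^ c + 1) ≤ (k + κ + 1) * (2 * X) := Nat.mul_le_mul (by omega) (by omega)
      have h6 : (k + κ + 1) * (2 * X) = 2 * (k + κ + 1) * X := by ring
      omega
    obtain ⟨K, hK⟩ : ∃ K, K = k + κ + 1 := ⟨_, rfl⟩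
    rw [← hK] at h3 h4
    obtain ⟨y, hy⟩ : ∃ y, y = K * X := ⟨_, rfl⟩
    have h7 : X ≤ y := by rw [hy]; exact Nat.le_mul_of_pos_left _ (by omega)
    have h8 : K ≤ y := by rw [hy]; exact Nat.le_mul_of_pos_right _ (by omega)
    have h9 : m n ≤ 2 * y := by rw [hy]; linarith
    have h10 : Λ n = 200 * (y * y) := by rw [h3, hy]; ring
    have h11 : m n * (2 * n + 2 * m n + 6) ≤ (2 * y) * (2 * y + 4 * y + 6 * y) :=
      Nat.mul_le_mul h9 (by omega)
    have h12 : (2 * y) * (2 * y + 4 * y + 6 * y) = 24 * (y * y) := by ring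
    have h13 : y ≤ y * y := Nat.le_mul_of_pos_left _ (by omega)
    omega
  -- the verifier
  obtain ⟨u, K, hKc⟩ := KL_complete (OPT_VT P k c hv hd) 0
  have hinst : ∀ x : List Bool,
      inst u K (Λ x.length) x (a x.length) (σ x.length) ∈ KL O ↔ x ∈ L := by
    intro x
    have hax := ha x.length
    have hsx := hσl x.length
    have hf := hfit x.length
    have hDx := hD x.length
    have hκx := hκ' x.length
    have hmx := hm x.length
    obtain ⟨M, hM⟩ : ∃ M, M = 2 ^ m x.length := ⟨_, rfl⟩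
    have hM' : M = 2 ^ (k * (x.length ^ c + 1)) := by rw [hM, hmx]
    have hxL := hx x M hM'
    rw [hDd, ← hmx] at hxL
    obtain ⟨w, hw⟩ : ∃ w, w = padTo (Λ x.length) (encPair (x, encPair (a x.length,
      σ x.length))) := ⟨_, rfl⟩
    have hwl : w.length = Λ x.length := by
      rw [hw, length_padTo]
      rw [length_encPair, length_encPair]
      omega
    have h1 := hKc w
    rw [hwl, Nat.add_zero] at h1
    have h2 : inst u K (Λ x.length) x (a x.length) (σ x.length) =
        encPair (u, encPair (w, List.replicate (K * (Λ x.length + 1)) true)) := by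
      unfold inst
      rw [hw]
    rw [h2, h1]
    have hVT : ∀ y : List Bool, VT v P d k c (w, y) =
        (VTp v P k c x (a x.length) (σ x.length) (unpair y).1 (unpair y).2 &&
          d ((x, a x.length), TT x (Mc (unpair y).1.length k c x.length)
            (fun l => vlc ((unpair y).2.length + 1) (nthC (σ x.length) l)) (unpair y).2
              (m x.length))) := by
      intro y
      unfold VT
      dsimp only
      rw [hw, unpair_padTo]
      simp only [unpair_enc]
      rw [hmx]
    have hnth : ∀ i < m x.length, nthC (σ x.length) i =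
        str (cns v (P.eval x.length) (a x.length) x.length M i) := by
      intro i hi
      rw [hσ, nthC_mkC _ _ _ hi, hM]
    have hvs : ∀ i < m x.length, vl (nthC (σ x.length) i) =
        cns v (P.eval x.length) (a x.length) x.length M i := by
      intro i hi
      rw [hnth i hi, vl_str]
    have hlen : ∀ (y : List Bool) (i : ℕ), (nthC y i).length ≤ y.length := fun y i =>
      length_nthC_le y i
    have hcap : ∀ (y : List Bool), (∀ i < m x.length,
        chkY (vc v M (fun l => vlc (y.length + 1) (nthC (σ x.length) l)) y i)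
          (P.eval x.length) (a x.length) x.length M (vlc (y.length + 1) (nthC (σ x.length) i))
            (nthC y i) = true) → ∀ i < m x.length, vlc (y.length + 1) (nthC (σ x.length) i) =
              cns v (P.eval x.length) (a x.length) x.length M i := by
      intro y hy i hi
      have h9 := (chkY_iff.1 (hy i hi)).1
      have h10 := hlen y i
      rw [vlc_eq, hvs i hi] at h9 ⊢
      omega
    constructor
    · rintro ⟨y, -, hy⟩
      rw [hVT, Bool.and_eq_true] at hy
      unfold VTp at hy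
      rw [Bool.and_eq_true, decide_eq_true_eq, p2_eq] at hy
      obtain ⟨⟨h3, h4⟩, h5⟩ := hy
      have h6 : 1 ≤ 2 ^ (k * (x.length ^ c + 1)) := Nat.one_le_two_pow
      have h7 : 2 ^ (k * (x.length ^ c + 1)) ≤ (unpair y).1.length + 1 := by omega
      rw [Mc_eq h7, ← hM', ← hmx] at h4
      rw [Mc_eq h7, ← hM'] at h5
      rw [List.all_eq_true] at h4
      have h4' : ∀ i < m x.length, _ := fun i hi => h4 i (List.mem_range.2 hi)
      have h8 := hcap _ h4'
      rw [TT_eq h8 h4' _ le_rfl x rfl] at h5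
      exact hxL.2 h5
    · intro hxm
      obtain ⟨t, ht⟩ : ∃ t : ℕ → ℕ, t = fun i => cns v (P.eval x.length) (a x.length)
        x.length M i := ⟨_, rfl⟩
      obtain ⟨y₁, h3, h4⟩ := exists_TT (v := v) (B := P.eval x.length) (n := x.length)
        (a := a x.length) (M := M) (R := m x.length) (t := fun l =>
          vl (nthC (σ x.length) l)) hvs
      have h5 : ∀ i < m x.length, vlc (y₁.length + 1) (nthC (σ x.length) i) =
          vl (nthC (σ x.length) i) := by
        intro i hi
        have h9 := (chkY_iff.1 (h4 i hi)).1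
        have h10 := hlen y₁ i
        rw [vlc_eq]
        omega
      have h6 : ∀ (z : List Bool), ∀ i ≤ m x.length,
          TT z M (fun l => vlc (y₁.length + 1) (nthC (σ x.length) l)) y₁ i =
            TT z M (fun l => vl (nthC (σ x.length) l)) y₁ i := by
        intro z i hi
        exact TT_congr fun l hl => h5 l (by omega)
      have h4' : ∀ i < m x.length,
          chkY (vc v M (fun l => vlc (y₁.length + 1) (nthC (σ x.length) l)) y₁ i)
            (P.eval x.length) (a x.length) x.length M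
              (vlc (y₁.length + 1) (nthC (σ x.length) i)) (nthC y₁ i) = true := by
        intro i hi
        have g1 := h4 i hi
        have g2 : vc v M (fun l => vlc (y₁.length + 1) (nthC (σ x.length) l)) y₁ i =
            vc v M (fun l => vl (nthC (σ x.length) l)) y₁ i := by
          funext q
          unfold vc
          rw [h6 _ i hi.le]
        rw [g2, h5 i hi]
        exact g1
      have h7 := TT_eq (hcap y₁ h4') h4' _ le_rfl x rfl
      refine ⟨encPair (List.replicate M true, y₁), ?_, ?_⟩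
      · rw [length_encPair, List.length_replicate]
        have e1 : 2 * (2 * x.length + 2 + (2 * M + 2 + P.eval x.length)) + 2 ≤
            2 ^ (κ + x.length + (m x.length + 2) + 1) := by
          have g1 := add_le_two_pow hκx (le_refl (2 ^ (m x.length + 2)))
          rw [pow_add 2 (m x.length) 2, ← hM] at g1
          omega
        obtain ⟨E, hE⟩ : ∃ E, E = 2 * (2 * x.length + 2 + (2 * M + 2 + P.eval x.length)) + 2 :=
          ⟨_, rfl⟩
        rw [← hE] at h3 e1
        have e0 : 2 ^ (x.length + 1) * M ≤ 2 ^ (x.length + 1 + m x.length) := by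
          rw [hM, ← pow_add]
        have e2 := mul_le_two_pow e0 e1
        obtain ⟨A, hA⟩ : ∃ A, A = 2 ^ (x.length + 1) * M * E := ⟨_, rfl⟩
        rw [← hA] at h3 e2
        obtain ⟨q, hq⟩ : ∃ q, q = x.length + 1 + m x.length +
          (κ + x.length + (m x.length + 2) + 1) := ⟨_, rfl⟩
        rw [← hq] at e2
        have e4 : 2 * A + 2 ≤ 2 ^ (q + 2) := by
          have g1 : 1 ≤ 2 ^ q := Nat.one_le_two_pow
          rw [pow_add]
          omega
        have e5 := h3.trans (mul_le_two_pow Nat.lt_two_pow_self.le e4)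
        have e3 : 2 * M + 2 ≤ 2 ^ (m x.length + 2) := by
          rw [pow_add, ← hM]
          have : 1 ≤ M := by rw [hM]; exact Nat.one_le_two_pow
          omega
        refine (add_le_two_pow e3 e5).trans (Nat.pow_le_pow_right (by norm_num) ?_)
        omega
      · rw [hVT, unpair_enc]
        unfold VTp
        dsimp only
        rw [List.length_replicate]
        have g6 : 1 ≤ M := by rw [hM]; exact Nat.one_le_two_pow
        have g7 : p2 (M + 1) (k * (x.length ^ c + 1)) ≤ M := by
          rw [p2_eq, ← hM']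
          omega
        have g8 : Mc M k c x.length = M := by
          rw [Mc_eq (by rw [← hM']; omega), ← hM']
        rw [g8, h7, hxL.1 hxm, Bool.and_true, Bool.and_eq_true, decide_eq_true_eq,
          List.all_eq_true]
        refine ⟨g7, fun i hi => ?_⟩
        rw [List.mem_range, ← hmx] at hi
        exact h4' i hi
  -- the length of the instances of the complete language
  obtain ⟨ρ, hρ⟩ : ∃ ρ : ℕ → ℕ, ∀ n, ρ n = 2 * u.length + 2 + (2 * Λ n + 2 + K * (Λ n + 1)) :=
    ⟨_, fun _ => rfl⟩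
  obtain ⟨Z₁, hZ₁⟩ : ∃ Z₁, Z₁ = 2 * u.length + 4 + 2 * Z + K * (Z + 1) + CK := ⟨_, rfl⟩
  obtain ⟨γ, hγ⟩ : ∃ γ, γ = 2 * c + 1 := ⟨_, rfl⟩
  have hΛ2 : ∀ n, Λ n = Z * (n + 1) ^ (γ + 1) := by
    intro n
    rw [hΛ, hγ]
  have hρ1 : ∀ n, ρ n + CK ≤ (n + (Z₁ + 1)) ^ (γ + 2) := by
    intro n
    have h1 : 1 ≤ (n + 1) ^ (γ + 1) := Nat.one_le_pow _ _ (by omega)
    have h2 : ρ n + CK ≤ Z₁ * (n + 1) ^ (γ + 1) := by
      have h3 : Z₁ * (n + 1) ^ (γ + 1) = 2 * u.length * (n + 1) ^ (γ + 1) + 4 * (n + 1) ^ (γ + 1) +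
          2 * (Z * (n + 1) ^ (γ + 1)) + K * (Z * (n + 1) ^ (γ + 1) + (n + 1) ^ (γ + 1)) +
          CK * (n + 1) ^ (γ + 1) := by
        rw [hZ₁]
        ring
      have h4 : 2 * u.length ≤ 2 * u.length * (n + 1) ^ (γ + 1) :=
        Nat.le_mul_of_pos_right _ (by omega)
      have h5 : CK ≤ CK * (n + 1) ^ (γ + 1) := Nat.le_mul_of_pos_right _ (by omega)
      have h6 : K * (Λ n + 1) ≤ K * (Z * (n + 1) ^ (γ + 1) + (n + 1) ^ (γ + 1)) :=
        Nat.mul_le_mul_left _ (by rw [hΛ2]; omega)
      have h7 := hΛ2 n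
      rw [h3, hρ]
      omega
    have h3 : Z₁ * (n + 1) ^ (γ + 1) ≤ (n + (Z₁ + 1)) * (n + (Z₁ + 1)) ^ (γ + 1) :=
      Nat.mul_le_mul (by omega) (Nat.pow_le_pow_left (by omega) _)
    have h4 : (n + (Z₁ + 1)) * (n + (Z₁ + 1)) ^ (γ + 1) = (n + (Z₁ + 1)) ^ (γ + 2) := by
      rw [pow_succ _ (γ + 1), Nat.mul_comm]
    omega
  obtain ⟨C', hC'⟩ : ∃ C', C' = 2 * Z + Z₁ + 5 := ⟨_, rfl⟩
  have hρ2 : ∀ n, (ρ n + CK) ^ e ≤ (n + C') ^ ((γ + 2) * e) := by
    intro n
    calc (ρ n + CK) ^ e ≤ ((n + (Z₁ + 1)) ^ (γ + 2)) ^ e := Nat.pow_le_pow_left (hρ1 n) _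
      _ = (n + (Z₁ + 1)) ^ ((γ + 2) * e) := (pow_mul _ _ _).symm
      _ ≤ _ := Nat.pow_le_pow_left (by omega) _
  have hρ3 : ∀ n, (ρ n + CK) ^ e ≤ (n + C') ^ ((γ + 2) * e + (γ + 3)) := fun n =>
    (hρ2 n).trans (Nat.pow_le_pow_right (by omega) (by omega))
  rw [show (2 * c + 3) * e + (2 * c + 4) = (γ + 2) * e + (γ + 3) by rw [hγ]]
  -- the computation
  refine ⟨fun w => WK (inst u K (Λ w.1.length) w.1 (unpair w.2.1).1
    (unpair (unpair w.2.1).2).1, ((unpair (unpair w.2.1).2).2, w.2.2)),
    fun n => encPair (a n, encPair (σ n, bK (ρ n))), C', ?_, ?_, ?_⟩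
  · have u1 : PT (fun w : List Bool × (List Bool × ℕ) => unpair w.2.1) :=
      PT_unpair.comp PT.snd.p1
    have u2 : PT (fun w : List Bool × (List Bool × ℕ) => unpair (unpair w.2.1).2) :=
      PT_unpair.comp u1.p2
    have hΛ' : PT (fun w : List Bool × (List Bool × ℕ) => Λ w.1.length) :=
      (PT.nmul (PT.const Z) (PT_npow (PT.nsucc (PT.length PT.fst)) (2 * c + 2))).congr
        fun w => (hΛ _).symm
    refine hWK.comp_PT (PT.pair ?_ (PT.pair u2.p2 PT.snd.p2))
    unfold inst
    exact PT_encPair (PT.const u) (PT_encPair (PT_padTo hΛ' (PT_encPair PT.fst (PT_encPair u1.p1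
      u2.p1))) (PT.replicate (PT.nmul (PT.const K) (PT.nsucc hΛ')) (PT.const true)))
  · intro n
    rw [length_encPair, length_encPair]
    have h1 := ha n
    rw [← hm] at h1
    have h2 := hσl n
    have h3 := hbK (ρ n)
    have h4 := hρ2 n
    have h5 := hfit n
    obtain ⟨y, hy⟩ : ∃ y, y = n + C' := ⟨_, rfl⟩
    have h7 : Λ n ≤ y ^ (γ + 2) := by
      rw [hΛ2]
      have h8 : Z * (n + 1) ^ (γ + 1) ≤ y * y ^ (γ + 1) :=
        Nat.mul_le_mul (by omega) (Nat.pow_le_pow_left (by omega) _)
      have h9 : y * y ^ (γ + 1) = y ^ (γ + 2) := by rw [pow_succ _ (γ + 1), Nat.mul_comm]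
      omega
    rw [← hy] at h4 ⊢
    have h8 : y ^ (γ + 2) ≤ y ^ ((γ + 2) * e + (γ + 2)) :=
      Nat.pow_le_pow_right (by omega) (by omega)
    have h9 : y ^ ((γ + 2) * e) ≤ y ^ ((γ + 2) * e + (γ + 2)) :=
      Nat.pow_le_pow_right (by omega) (by omega)
    have h10 : 2 * y ^ ((γ + 2) * e + (γ + 2)) ≤ y ^ ((γ + 2) * e + (γ + 3)) := by
      have h11 : y ^ ((γ + 2) * e + (γ + 3)) = y * y ^ ((γ + 2) * e + (γ + 2)) := by
        rw [← Nat.add_assoc, pow_succ, Nat.mul_comm]
        rfl
      rw [h11]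
      exact Nat.mul_le_mul_right _ (by omega)
    omega
  · intro x N hN
    dsimp only
    rw [unpair_enc, unpair_enc, ← hinst x]
    have h3 : (inst u K (Λ x.length) x (a x.length) (σ x.length)).length = ρ x.length := by
      rw [hρ]
      apply length_inst
      have h4 := hfit x.length
      have h5 := ha x.length
      rw [← hm] at h5
      have h6 := hσl x.length
      omega
    have h4 := hKL (inst u K (Λ x.length) x (a x.length) (σ x.length)) N (by
      rw [h3]
      exact (Nat.pow_le_pow_right (by norm_num) (hρ3 x.length)).trans hN)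
    rw [h3] at h4
    exact h4

/-- **The lower bound.** -/
theorem lower_bound (O : Set (List Bool)) (c : ℕ) : ∃ L, InNEXP O L ∧ ¬ InRounds c O L := by
  by_contra hcon
  push Not at hcon
  have hNE : InNEXP O (KL O) := by
    refine ⟨1, fun p => MP_92db0f_lc_gold.VK O p = true,
      MP_92db0f_lc_gold.OPT.polyTime (MP_92db0f_lc_gold.OPT_VK O), fun z => ?_⟩
    rw [pow_one]
    unfold KL
    rw [Set.mem_ofPred_eq, one_mul]
  obtain ⟨e, he⟩ := ear_of_brute (hcon (KL O) hNE)
  exact LDR_not O _ (ear_of_rounds he (hcon (LDR O ((2 * c + 3) * e + (2 * c + 4)))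
    (LDR_mem O _)))

end Pool.Agent.FSR
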