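import Pool.Agent.FSR.Conv

/-!
Answers with short descriptions: the queries can be asked nonadaptively for all descriptions.
-/

set_option autoImplicit false
set_option linter.unusedSectionVars false

namespace Pool.Agent.FSR

open Lib.helper60 Function Turing Computability Pool.Agent.LCB
open MP_92db0f_lc hiding answers InNEXP mkC length_mkC PT_mkC answers_take length_answers
open MP_92db0f_lc_alg (answers PolyTime InNEXP join)
open MP_92db0f_lc_gold (OPT Meas pbMeas natPB gen length_gen length_answers answers_take)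
open MP_92db0f_lc_thr (PT_of_TM2 PT_of_TM2' PT_encz PT_encPair')
open FSP (Mc Mc_eq PT_Mc InTable InSpace PT_encv encv decv PT_decv decv_encv meas_encv
  polyTime_of_OPT meas_encz)

/-- the first `i` answers in the list with the description `z` -/
def lst (ω : ((List Bool × List Bool) × (ℕ × ℕ)) × List Bool → Bool)
    (xa : List Bool × List Bool) (M : ℕ) (z : List Bool) (i : ℕ) : List Bool :=
  (List.range i).map fun l => ω ((xa, (l, M)), z)

lemma lst_succ (ω : ((List Bool × List Bool) × (ℕ × ℕ)) × List Bool → Bool)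
    (xa : List Bool × List Bool) (M : ℕ) (z : List Bool) (i : ℕ) :
    lst ω xa M z (i + 1) = lst ω xa M z i ++ [ω ((xa, (i, M)), z)] := by
  unfold lst
  rw [List.range_succ, List.map_append]
  rfl

lemma length_lst (ω : ((List Bool × List Bool) × (ℕ × ℕ)) × List Bool → Bool)
    (xa : List Bool × List Bool) (M : ℕ) (z : List Bool) (i : ℕ) :
    (lst ω xa M z i).length = i := by
  unfold lst
  rw [List.length_map, List.length_range]

lemma lst_getD (ω : ((List Bool × List Bool) × (ℕ × ℕ)) × List Bool → Bool)
    (xa : List Bool × List Bool) (M : ℕ) (z : List Bool) {i N : ℕ} (h : i < N) :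
    (lst ω xa M z N).getD i false = ω ((xa, (i, M)), z) := by
  unfold lst
  rw [List.getD_eq_getElem _ _ (by rw [List.length_map, List.length_range]; exact h),
    List.getElem_map, List.getElem_range]

lemma lst_take (ω : ((List Bool × List Bool) × (ℕ × ℕ)) × List Bool → Bool)
    (xa : List Bool × List Bool) (M : ℕ) (z : List Bool) {i N : ℕ} (h : i ≤ N) :
    (lst ω xa M z N).take i = lst ω xa M z i := by
  unfold lst
  rw [← List.map_take, List.take_range, Nat.min_eq_left h]

open Classical in
/-- consistent lists are the true lists of answers -/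
lemma answers_eq_lst {S : Set (List Bool)} {q : (List Bool × List Bool) × List Bool → List Bool}
    {ω : ((List Bool × List Bool) × (ℕ × ℕ)) × List Bool → Bool} {xa : List Bool × List Bool}
    {M : ℕ} {z : List Bool} {N : ℕ}
    (h : ∀ i < N, ω ((xa, (i, M)), z) = decide (q (xa, lst ω xa M z i) ∈ S)) :
    ∀ i ≤ N, answers S q xa i = lst ω xa M z i := by
  intro i
  induction i with
  | zero => exact fun _ => rfl
  | succ i ih =>
    intro hi
    rw [answers, ih (by omega), lst_succ, h i (by omega)]

open Classical in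
lemma lst_of_answers {S : Set (List Bool)} {q : (List Bool × List Bool) × List Bool → List Bool}
    {ω : ((List Bool × List Bool) × (ℕ × ℕ)) × List Bool → Bool} {xa : List Bool × List Bool}
    {M : ℕ} {z : List Bool} {N : ℕ} (h : answers S q xa N = lst ω xa M z N) :
    ∀ i < N, ω ((xa, (i, M)), z) = decide (q (xa, lst ω xa M z i) ∈ S) := by
  intro i hi
  have h1 : ∀ l ≤ N, answers S q xa l = lst ω xa M z l := by
    intro l hl
    rw [← lst_take ω xa M z hl, ← h]
    exact (answers_take S q xa N l hl).symm
  have h2 := h1 (i + 1) hi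
  rw [answers, h1 i hi.le, lst_succ] at h2
  have h3 := List.append_cancel_left h2
  simpa using h3.symm

/-- the next query, for the description and the number of the query that are coded by `j` -/
def qof (q : (List Bool × List Bool) × List Bool → List Bool)
    (ω : ((List Bool × List Bool) × (ℕ × ℕ)) × List Bool → Bool) (k c : ℕ)
    (w : (List Bool × List Bool) × (ℕ × ℕ)) : List Bool :=
  q (w.1, lst ω w.1 (Mc w.2.2 k c w.1.1.length) (unpair (str w.2.1)).2
    (vlc w.2.2 (unpair (str w.2.1)).1))

/-- **Answers with short descriptions.** -/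
theorem table_of_short {O L : Set (List Bool)} {c : ℕ} (hc : 1 ≤ c) (hL : InShort c O L) :
    InTable c O L := by
  classical
  obtain ⟨S, q, d, W, a, P, k, hS, hq, hd, hW, ha, hx⟩ := hL
  obtain ⟨r, p, hr, hS⟩ := exists_cert hS
  have hq := PT_of_TM2 PT_encz hq
  have hd := PT_of_TM2' PT_encz hd
  obtain ⟨ω, hω, hWω⟩ := OPT_of_polyTime PT_encv hW
  obtain ⟨Bd, hBd⟩ := query_bound hq
  obtain ⟨κ, hκ⟩ := exists_poly_le P
  obtain ⟨P', hP'⟩ : ∃ P' : Polynomial ℕ, ∀ n, P'.eval n =
      p.eval (Bd.eval (n + k * (n ^ c + 1) + P.eval n)) := by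
    refine ⟨p.comp (Bd.comp (Polynomial.X + Polynomial.C k *
      (Polynomial.X ^ c + 1) + P)), fun n => ?_⟩
    simp [Polynomial.eval_comp]
  obtain ⟨V, hV⟩ : ∃ V : ((List Bool × List Bool) × (ℕ × ℕ)) × List Bool → Bool, V = fun z =>
    decide (z.2.length ≤ p.eval (qof q ω k c z.1).length) && r (qof q ω k c z.1, z.2) := ⟨_, rfl⟩
  have hMc {β : Type} [DEnc β] {x : β → List Bool} {m : β → ℕ} (hm : PT m) (hx : PT x) :
      PT (fun z => Mc (m z) k c (x z).length) := PT_Mc hm (PT.length hx) k c
  have hVO : OPT O V := by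
    rw [hV]
    unfold qof
    have h1 : OPT O (fun z : ((List Bool × List Bool) × (ℕ × ℕ)) × List Bool =>
        lst ω z.1.1 (Mc z.1.2.2 k c z.1.1.1.length) (unpair (str z.1.2.1)).2
          (vlc z.1.2.2 (unpair (str z.1.2.1)).1)) := by
      unfold lst
      refine MP_92db0f_lc_gold.OPT.bits (p := fun y :
        (((List Bool × List Bool) × (ℕ × ℕ)) × List Bool) × ℕ =>
        ω ((y.1.1.1, (y.2, Mc y.1.1.2.2 k c y.1.1.1.1.length)), (unpair (str y.1.1.2.1)).2)) ?_
        (PT_vlc PT.fst.p2.p2 (PT_unpair.comp (PT_str PT.fst.p2.p1)).p1)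
      exact hω.comp_PT (PT.pair (PT.pair PT.fst.p1.p1 (PT.pair PT.snd
        (hMc PT.fst.p1.p2.p2 PT.fst.p1.p1.p1))) (PT_unpair.comp (PT_str PT.fst.p1.p2.p1)).p2)
    have h2 : PT (fun y : (((List Bool × List Bool) × (ℕ × ℕ)) × List Bool) × List Bool =>
        q (y.1.1.1, y.2)) := hq.comp (PT.pair PT.fst.p1.p1 PT.snd)
    have h3 : OPT O (fun y : (((List Bool × List Bool) × (ℕ × ℕ)) × List Bool) × List Bool =>
        decide (y.1.2.length ≤ p.eval (q (y.1.1.1, y.2)).length) &&
          r (q (y.1.1.1, y.2), y.1.2)) :=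
      (OPT.of_PT (PT.nle (PT.length PT.fst.p2) (PT_peval p (PT.length h2)))).band
        (hr.comp_PT (PT.pair h2 PT.fst.p2))
    exact MP_92db0f_lc_gold.OPT.bind h1 h3
      (PT_vlc PT.fst.p2.p2 (PT_unpair.comp (PT_str PT.fst.p2.p1)).p1) fun z => by
        change List.length _ ≤ _
        rw [length_lst]
  obtain ⟨D, hD⟩ : ∃ D : (List Bool × List Bool) × List Bool → Bool, D = fun z =>
    (List.range (2 * Mc z.2.length k c z.1.1.length)).any fun s =>
      ((List.range (P.eval z.1.1.length)).all fun i =>
        decide (z.2.getD (vlc z.2.length (encPair (str i, str s))) false =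
          (lst ω z.1 (Mc z.2.length k c z.1.1.length) (str s)
            (P.eval z.1.1.length)).getD i false)) &&
      d (z.1, lst ω z.1 (Mc z.2.length k c z.1.1.length) (str s) (P.eval z.1.1.length)) :=
    ⟨_, rfl⟩
  have hDO : OPT O D := by
    rw [hD]
    refine MP_92db0f_lc_gold.OPT.any (p := fun y : ((List Bool × List Bool) × List Bool) × ℕ =>
      ((List.range (P.eval y.1.1.1.length)).all fun i =>
        decide (y.1.2.getD (vlc y.1.2.length (encPair (str i, str y.2))) false =
          (lst ω y.1.1 (Mc y.1.2.length k c y.1.1.1.length) (str y.2)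
            (P.eval y.1.1.1.length)).getD i false)) &&
      d (y.1.1, lst ω y.1.1 (Mc y.1.2.length k c y.1.1.1.length) (str y.2)
        (P.eval y.1.1.1.length))) ?_
      (PT.nmul (PT.const 2) (hMc (PT.length PT.snd) PT.fst.p1))
    have hPe : PT (fun y : ((List Bool × List Bool) × List Bool) × ℕ =>
        P.eval y.1.1.1.length) := PT_peval P (PT.length PT.fst.p1.p1)
    have h1 : OPT O (fun y : ((List Bool × List Bool) × List Bool) × ℕ =>
        lst ω y.1.1 (Mc y.1.2.length k c y.1.1.1.length) (str y.2) (P.eval y.1.1.1.length)) := by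
      unfold lst
      refine MP_92db0f_lc_gold.OPT.bits (p := fun y :
        (((List Bool × List Bool) × List Bool) × ℕ) × ℕ =>
        ω ((y.1.1.1, (y.2, Mc y.1.1.2.length k c y.1.1.1.1.length)), str y.1.2)) ?_ hPe
      exact hω.comp_PT (PT.pair (PT.pair PT.fst.p1.p1 (PT.pair PT.snd
        (hMc (PT.length PT.fst.p1.p2) PT.fst.p1.p1.p1))) (PT_str PT.fst.p2))
    have h3 : OPT O (fun y : (((List Bool × List Bool) × List Bool) × ℕ) × List Bool =>
        ((List.range (P.eval y.1.1.1.1.length)).all fun i =>
          decide (y.1.1.2.getD (vlc y.1.1.2.length (encPair (str i, str y.1.2))) false =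
            y.2.getD i false)) && d (y.1.1.1, y.2)) := by
      refine OPT.of_PT (PT.band (PT.all (p := fun w :
        ((((List Bool × List Bool) × List Bool) × ℕ) × List Bool) × ℕ =>
          decide (w.1.1.1.2.getD (vlc w.1.1.1.2.length (encPair (str w.2, str w.1.1.2))) false =
            w.1.2.getD w.2 false)) (PT.range (hPe.comp PT.fst)) ?_) (hd.comp (PT.pair
              PT.fst.p1.p1 PT.snd)))
      exact PT.beq (PT.getD PT.fst.p1.p1.p2 (PT_vlc (PT.length PT.fst.p1.p1.p2)
        (PT_encPair (PT_str PT.snd) (PT_str PT.fst.p1.p2))) (PT.const false))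
        (PT.getD PT.fst.p2 PT.snd (PT.const false))
    exact MP_92db0f_lc_gold.OPT.bind h1 h3 hPe fun z => by
      change List.length _ ≤ _
      rw [length_lst]
  refine ⟨fun z => V z = true, fun z => D z = true, a, P', k + 2 * κ + 7,
    polyTime_of_OPT PT_decv decv_encv meas_encv hVO,
    polyTime_of_OPT MP_92db0f_lc_gold.PT_dec3 (fun z => MP_92db0f_lc_gold.dec3_enc3 z) meas_encz
      hDO, fun n => (ha n).trans (Nat.mul_le_mul_right _ (by omega)), ?_⟩
  intro x M' hM'
  obtain ⟨M, hM⟩ : ∃ M, M = 2 ^ (k * (x.length ^ c + 1)) := ⟨_, rfl⟩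
  obtain ⟨⟨zt, hzt1, hzt2⟩, hxL⟩ := hx x M hM
  have hax := ha x.length
  obtain ⟨B, hB⟩ : ∃ B, B = k * (x.length ^ c + 1) := ⟨_, rfl⟩
  rw [← hB] at hM hzt1 hax
  have hexp : B + 2 * κ + 7 + 2 * x.length ≤ (k + 2 * κ + 7) * (x.length ^ c + 1) := by
    have h1 : x.length ≤ x.length ^ c := Nat.le_self_pow (by omega) _
    obtain ⟨X, hX⟩ : ∃ X, X = x.length ^ c := ⟨_, rfl⟩
    rw [← hX] at h1 hB ⊢
    have h2 : (k + 2 * κ + 7) * (X + 1) = k * (X + 1) + 2 * (κ * X) + 2 * κ + 7 * X + 7 := by ring
    omega
  have hMM : 2 ^ (B + 2 * κ + 7 + 2 * x.length) ≤ M' := by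
    rw [hM']
    exact Nat.pow_le_pow_right (by norm_num) hexp
  have hMle : M ≤ M' := by
    rw [hM]
    exact (Nat.pow_le_pow_right (by norm_num) (by omega)).trans hMM
  have hMcM : Mc M' k c x.length = M := by
    rw [hM, hB]
    exact Mc_eq (by rw [← hB, ← hM]; omega)
  -- the index of a query
  have hidx : ∀ (i : ℕ) (z : List Bool), i ≤ P.eval x.length → z.length ≤ B + 1 →
      vl (encPair (str i, z)) < M' := by
    intro i z hi hz
    have h1 := vl_lt (encPair (str i, z))
    rw [length_encPair] at h1
    have h2 : (str i).length ≤ κ + x.length + 1 := length_str_le (hi.trans (hκ x.length))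
    have h3 : 2 ^ (2 * (str i).length + 2 + z.length + 1) ≤
        2 ^ (B + 2 * κ + 7 + 2 * x.length) := Nat.pow_le_pow_right (by norm_num) (by omega)
    omega
  have hiM : ∀ i ≤ P.eval x.length, i ≤ M' := by
    intro i hi
    exact (hi.trans (hκ x.length)).trans ((Nat.pow_le_pow_right (by norm_num)
      (by omega)).trans hMM)
  obtain ⟨l, hl⟩ : ∃ l : List Bool, l = (List.range M').map fun j => decide (∃ y : List Bool,
    y.length ≤ P'.eval x.length ∧ V (((x, a x.length), (j, M')), y) = true) := ⟨_, rfl⟩
  beta_reduce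
  rw [← hl]
  have hll : l.length = M' := by rw [hl, List.length_map, List.length_range]
  have hlook : ∀ (i : ℕ) (z : List Bool), i ≤ P.eval x.length → z.length ≤ B + 1 →
      l.getD (vlc l.length (encPair (str i, z))) false =
        decide (q ((x, a x.length), lst ω (x, a x.length) M z i) ∈ S) := by
    intro i z hi hz
    have h3 := hidx i z hi hz
    have h5 : vlc l.length (encPair (str i, z)) = vl (encPair (str i, z)) := by
      rw [vlc_eq, hll]
      omega
    rw [h5, hl, List.getD_eq_getElem _ _ (by
      rw [List.length_map, List.length_range]; exact h3), List.getElem_map, List.getElem_range,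
      Bool.eq_iff_iff, decide_eq_true_iff, decide_eq_true_iff]
    have h6 : qof q ω k c ((x, a x.length), (vl (encPair (str i, z)), M')) =
        q ((x, a x.length), lst ω (x, a x.length) M z i) := by
      unfold qof
      dsimp only
      rw [str_vl, unpair_enc, hMcM]
      dsimp only
      have h7 : vlc M' (str i) = i := by
        have g1 := hiM i hi
        rw [vlc_eq, vl_str]
        omega
      rw [h7]
    have h8 : (q ((x, a x.length), lst ω (x, a x.length) M z i)).length ≤
        Bd.eval (x.length + k * (x.length ^ c + 1) + P.eval x.length) := by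
      apply hBd
      rw [length_lst, ← hB]
      omega
    rw [hV]
    simp only [h6, Bool.and_eq_true, decide_eq_true_eq]
    rw [hS _]
    constructor
    · rintro ⟨y, -, hy⟩
      exact ⟨y, hy⟩
    · rintro ⟨y, hy1, hy2⟩
      refine ⟨y, ?_, hy1, hy2⟩
      rw [hP']
      exact hy1.trans (evalMono p h8)
  have hDl : D ((x, a x.length), l) = true ↔ ∃ s < 2 * M,
      (∀ i < P.eval x.length, l.getD (vlc l.length (encPair (str i, str s))) false =
        ω (((x, a x.length), (i, M)), str s)) ∧
      d ((x, a x.length), lst ω (x, a x.length) M (str s) (P.eval x.length)) = true := by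
    rw [hD]
    dsimp only
    rw [hll, hMcM, List.any_eq_true]
    constructor
    · rintro ⟨s, hs, h1⟩
      rw [List.mem_range] at hs
      rw [Bool.and_eq_true, List.all_eq_true] at h1
      refine ⟨s, hs, fun i hi => ?_, h1.2⟩
      have h2 := h1.1 i (List.mem_range.2 hi)
      rw [decide_eq_true_iff, lst_getD _ _ _ _ hi] at h2
      exact h2
    · rintro ⟨s, hs, h1, h2⟩
      refine ⟨s, List.mem_range.2 hs, ?_⟩
      rw [Bool.and_eq_true, List.all_eq_true]
      refine ⟨fun i hi => ?_, h2⟩
      rw [List.mem_range] at hi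
      rw [decide_eq_true_iff, lst_getD _ _ _ _ hi]
      exact h1 i hi
  rw [hDl, hxL]
  have hPle : ∀ i < P.eval x.length, i ≤ P.eval x.length := fun i hi => hi.le
  constructor
  · intro h1
    refine ⟨vl zt, ?_, ?_, ?_⟩
    · have h2 := vl_lt zt
      have h3 : 2 ^ (zt.length + 1) ≤ 2 ^ (B + 1) := Nat.pow_le_pow_right (by norm_num) (by omega)
      rw [pow_succ 2 B, ← hM] at h3
      omega
    · intro i hi
      rw [str_vl, hlook i zt hi.le (by omega)]
      have h4 : answers S q (x, a x.length) (P.eval x.length) =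
          lst ω (x, a x.length) M zt (P.eval x.length) := by
        rw [hzt2]
        unfold lst
        apply List.map_congr_left
        intro l _
        rw [Bool.eq_iff_iff, decide_eq_true_iff]
        exact hWω _
      exact (lst_of_answers h4 i hi).symm
    · rw [str_vl]
      have h4 : answers S q (x, a x.length) (P.eval x.length) =
          lst ω (x, a x.length) M zt (P.eval x.length) := by
        rw [hzt2]
        unfold lst
        apply List.map_congr_left
        intro l _
        rw [Bool.eq_iff_iff, decide_eq_true_iff]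
        exact hWω _
      rw [← h4]
      exact h1
  · rintro ⟨s, hs, h1, h2⟩
    have hsl : (str s).length ≤ B + 1 := by
      have h3 := le_vl (str s)
      rw [vl_str] at h3
      have h4 : 2 ^ (str s).length ≤ 2 ^ (B + 1) := by
        rw [pow_succ 2 B, ← hM]
        omega
      exact (Nat.pow_le_pow_iff_right (by norm_num)).1 h4
    have h5 := answers_eq_lst (S := S) (q := q) (ω := ω) (xa := (x, a x.length)) (M := M)
      (z := str s) (N := P.eval x.length) (fun i hi => by
        rw [← h1 i hi, hlook i (str s) hi.le hsl]) _ le_rfl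
    rw [h5]
    exact h2

/-- **Answers with short descriptions.** -/
theorem rounds_of_short {O L : Set (List Bool)} {c : ℕ} (hc : 1 ≤ c) (hL : InShort c O L) :
    InRounds c O L := rounds_of_table (table_of_short hc hL)

end Pool.Agent.FSR
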