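import Pool.Agent.FSP.Union
import Pool.Agent.FSR.Short

/-!
Polynomial time with an oracle in `NP`: for some `c` the memory and the list of all answers have
`O(n ^ c)` bits.
-/

set_option autoImplicit false
set_option linter.unusedSectionVars false

namespace Pool.Agent.FSR

open Lib.helper60 Function Turing Computability Pool.Agent.LCB
open MP_92db0f_lc (poly_le_pow_add PT_encPair)
open MP_92db0f_lc_alg (answers PolyTime InP)
open MP_92db0f_lc_gold (OPT TM_of_str TM_of_bool length_answers)
open MP_92db0f_lc_thr (PT_of_TM2 PT_of_TM2')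
open FSP (InSpace step step_answers decv PT_decv decv_encv meas_encv polyTime_of_OPT)

lemma exists_bound (P : Polynomial ℕ) : ∃ c, 1 ≤ c ∧ ∀ n, P.eval n ≤ (c + 1) * (n ^ c + 1) := by
  obtain ⟨c, hc⟩ := poly_le_pow_add P
  refine ⟨c + 1, by omega, fun n => ?_⟩
  have h1 := hc n
  have h2 : n ^ c ≤ n ^ (c + 1) + 1 := by
    rcases Nat.eq_zero_or_pos n with h | h
    · subst h
      rcases Nat.eq_zero_or_pos c with h | h
      · subst h
        simp
      · rw [Nat.zero_pow h]
        omega
    · exact (Nat.pow_le_pow_right h (Nat.le_succ c)).trans (Nat.le_succ _)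
  have h3 : (c + 1 + 1) * (n ^ (c + 1) + 1) = c * n ^ (c + 1) + n ^ (c + 1) + n ^ (c + 1) + c +
    2 := by ring
  omega

lemma answers_fst (S : Set (List Bool)) (q : List Bool × List Bool → List Bool)
    (xa : List Bool × List Bool) (i : ℕ) :
    answers S (fun z : (List Bool × List Bool) × List Bool => q (z.1.1, z.2)) xa i =
      answers S q xa.1 i := by
  induction i with
  | zero => rfl
  | succ i ih => rw [answers, answers, ih]

/-- **Polynomial time with an oracle in `NP`.** -/
theorem exists_both {O S L : Set (List Bool)} (hS : InNP O S) (hL : InP S L) :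
    ∃ c, 1 ≤ c ∧ InSpace c O L ∧ InShort c O L := by
  classical
  obtain ⟨q, d, P, hq, hd, hx⟩ := hL
  have he : PT (fun z : List Bool × List Bool => encPair (z.1, z.2)) := PT_encPair PT.fst PT.snd
  have hq := PT_of_TM2 he hq
  have hd := PT_of_TM2' he hd
  obtain ⟨c, hc1, hc⟩ := exists_bound P
  refine ⟨c, hc1, ?_, ?_⟩
  · refine ⟨S, fun z => q (z.1.1, z.2), fun _ => true, fun z => z.2.tail ++ [z.2.headD false],
      fun z => d (z.1.1, z.2), fun _ => [], fun n => P.eval n, 0, c + 1, hS,
      TM_of_str (hq.comp (PT.pair PT.fst.p1 PT.snd)), TM_of_bool (PT.const true),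
      TM_of_str (PT.append (PT.tail PT.snd) (PT.cons (PT.headD PT.snd (PT.const false))
        (PT.const []))), TM_of_bool (hd.comp (PT.pair PT.fst.p1 PT.snd)), ?_, ?_⟩
    · intro n
      exact ⟨Nat.zero_le _, (hc n).trans Nat.lt_two_pow_self.le⟩
    · intro x
      refine ⟨fun t ht => ?_, ?_⟩
      · rw [step_answers]
        have h1 := hc x.length
        refine ⟨?_, Nat.zero_le _⟩
        have h2 : (answers S q x t).length = t := length_answers S q x t
        dsimp only at ht ⊢
        omega
      · rw [step_answers]
        exact hx x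
  · have hW : OPT O (fun z : ((List Bool × List Bool) × (ℕ × ℕ)) × List Bool =>
        z.2.getD z.1.2.1 false) :=
      OPT.of_PT (PT.getD PT.snd PT.fst.p2.p1 (PT.const false))
    refine ⟨S, fun z => q (z.1.1, z.2), fun z => d (z.1.1, z.2), _, fun _ => [], P, c + 1, hS,
      TM_of_str (hq.comp (PT.pair PT.fst.p1 PT.snd)),
      TM_of_bool (hd.comp (PT.pair PT.fst.p1 PT.snd)),
      polyTime_of_OPT PT_decv decv_encv meas_encv hW, fun n => Nat.zero_le _, ?_⟩
    intro x M _
    have hlen : (answers S q x (P.eval x.length)).length = P.eval x.length :=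
      length_answers S q x _
    refine ⟨⟨answers S q x (P.eval x.length), ?_, ?_⟩, ?_⟩
    · rw [hlen]
      exact hc x.length
    · rw [answers_fst]
      apply List.ext_getElem
      · rw [hlen, List.length_map, List.length_range]
      · intro i h1 h2
        rw [List.getElem_map, List.getElem_range]
        dsimp only
        rw [List.getD_eq_getElem _ _ h1, Bool.decide_eq_true]
    · rw [answers_fst]
      exact hx x

end Pool.Agent.FSR
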